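import Pool.Agent.H87.Luz.Fusion

/-!
# Separating many candidates
-/

set_option autoImplicit false

namespace Pool.Agent.H87.Luz.Silver

open Set

/-- A continuous map `X` on the total extensions of `W`, which depends on the columns outside `ρ`
below every condition. -/
structure Data where
  W : Silver ℕ
  X : (ℕ → ℕ → Bool) → Set ℕ
  G : ℕ → Finset (ℕ × ℕ)
  ρ : Set ℕ
  cont : ∀ n z z', W.Ext z → W.Ext z' → (∀ x ∈ G n, z x.1 x.2 = z' x.1 x.2) →
    (n ∈ X z ↔ n ∈ X z')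
  nc : ∀ t, t ≤ W → ∃ z z', t.Ext z ∧ t.Ext z' ∧ (∀ i ∈ ρ, ∀ m, z i m = z' i m) ∧ X z ≠ X z'

/-- The values of `X` on the total extensions of `t` given by `ζ` on `Z` and by `β` or `β'` on `B`
are different below `m`. -/
def Sep (d : Data) (t : Silver ℕ) (Z B ζ β β' : Finset (ℕ × ℕ)) (m : ℕ) : Prop :=
  ∀ z z', t.Ext z → t.Ext z' → tr z Z = ζ → tr z' Z = ζ → tr z B = β → tr z' B = β' →
    ∃ n < m, ¬ (n ∈ d.X z ↔ n ∈ d.X z')

theorem Sep.mono {d : Data} {t t' : Silver ℕ} {Z B ζ β β' : Finset (ℕ × ℕ)} {m m' : ℕ}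
    (h : Sep d t Z B ζ β β' m) (ht : t' ≤ t) (hm : m ≤ m') : Sep d t' Z B ζ β β' m' := by
  intro z z' h1 h2 h3 h4 h5 h6
  obtain ⟨n, hn, h7⟩ := h z z' (h1.mono ht) (h2.mono ht) h3 h4 h5 h6
  exact ⟨n, hn.trans_le hm, h7⟩

theorem tr_inter (z : ℕ → ℕ → Bool) {B B' : Finset (ℕ × ℕ)} (h : B ⊆ B') :
    tr z B = tr z B' ∩ B := by
  ext x
  simp only [mem_tr, Finset.mem_inter]
  constructor
  · rintro ⟨h1, h2⟩
    exact ⟨⟨h h1, h2⟩, h1⟩
  · rintro ⟨⟨-, h2⟩, h1⟩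
    exact ⟨h1, h2⟩

theorem Sep.enlarge {d : Data} {t : Silver ℕ} {Z B B' ζ β β' γ γ' : Finset (ℕ × ℕ)} {m : ℕ}
    (h : Sep d t Z B ζ β β' m) (hB : B ⊆ B') (hγ : γ ∩ B = β) (hγ' : γ' ∩ B = β') :
    Sep d t Z B' ζ γ γ' m := by
  intro z z' h1 h2 h3 h4 h5 h6
  refine h z z' h1 h2 h3 h4 ?_ ?_
  · rw [tr_inter z hB, h5, hγ]
  · rw [tr_inter z' hB, h6, hγ']

/-- A state of the construction: `M` candidates `β l` on the block `B`. -/
structure IsBlock (d : Data) (M : ℕ) (Z : Finset (ℕ × ℕ)) (t : Silver ℕ) (B : Finset (ℕ × ℕ))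
    (β : Fin M → Finset (ℕ × ℕ)) : Prop where
  free : t.Free (Z ∪ B)
  disj : Disjoint Z B
  root : ∀ x ∈ B, x.1 ∉ d.ρ
  sub : ∀ l, β l ⊆ B

theorem value_of_ext {t : Silver ℕ} {F T : Finset (ℕ × ℕ)} {z : ℕ → ℕ → Bool}
    (h : (t.ext F T).Ext z) {x : ℕ × ℕ} (hx : x ∈ F) : z x.1 x.2 = true ↔ x ∈ T := by
  have h1 := h x.1 x.2 (decide (x ∈ T)) (by
    rw [ext_f, if_pos hx]
    exact congrArg some (decide_eq_decide.2 Iff.rfl))
  rw [h1, decide_eq_true_iff]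

theorem value_of_tr {z : ℕ → ℕ → Bool} {F T : Finset (ℕ × ℕ)} (h : tr z F = T) {x : ℕ × ℕ}
    (hx : x ∈ F) : z x.1 x.2 = true ↔ x ∈ T := by
  rw [← h, mem_tr]
  exact ⟨fun h => ⟨hx, h⟩, fun h => h.2⟩

theorem eq_of_iff {a b : Bool} (h : a = true ↔ b = true) : a = b := by
  cases a <;> cases b <;> simp_all

theorem sep_step (d : Data) {M : ℕ} {Z : Finset (ℕ × ℕ)} {t : Silver ℕ} (ht : t ≤ d.W)
    {B : Finset (ℕ × ℕ)} {β : Fin M → Finset (ℕ × ℕ)} (hb : IsBlock d M Z t B β)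
    {ζ : Finset (ℕ × ℕ)} (hζ : ζ ⊆ Z) {i i' : Fin M} (hi : i ≠ i') :
    ∃ t' ≤ t, ∃ B' β', B ⊆ B' ∧ IsBlock d M Z t' B' β' ∧ (∀ l, β' l ∩ B = β l) ∧
      ∃ m, Sep d t' Z B' ζ (β' i) (β' i') m := by
  classical
  have hZB : ∀ x, x ∈ Z → x ∉ B := fun x h1 h2 => Finset.disjoint_left.1 hb.disj h1 h2
  have hti : t.ext (Z ∪ B) (ζ ∪ β i) ≤ t := ext_le hb.free
  obtain ⟨z1, z2, h1, h2, h12, hX⟩ := d.nc _ (hti.trans ht)
  obtain ⟨n, hn⟩ : ∃ n, ¬ (n ∈ d.X z1 ↔ n ∈ d.X z2) := by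
    by_contra hc
    push Not at hc
    exact hX (Set.ext hc)
  let B1 : Finset (ℕ × ℕ) := (d.G n).filter fun x => z1 x.1 x.2 ≠ z2 x.1 x.2
  have hB1 : ∀ x ∈ B1, x.1 ∉ d.ρ ∧ x ∉ Z ∪ B ∧ t.f x.1 x.2 = none := by
    intro x hx
    have hx2 : z1 x.1 x.2 ≠ z2 x.1 x.2 := (Finset.mem_filter.1 hx).2
    refine ⟨fun h => hx2 (h12 _ h _), fun h => hx2 (eq_of_iff ?_), ?_⟩
    · rw [value_of_ext h1 h, value_of_ext h2 h]
    · by_contra hc
      obtain ⟨b, hb⟩ := Option.ne_none_iff_exists'.1 hc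
      exact hx2 (by rw [(h1.mono hti) _ _ b hb, (h2.mono hti) _ _ b hb])
  let B' : Finset (ℕ × ℕ) := B ∪ B1
  let O : Finset (ℕ × ℕ) := d.G n \ (Z ∪ B')
  let t' : Silver ℕ := t.ext O (tr z1 O)
  have ht' : t' ≤ t := ext_tr_le (h1.mono hti) O
  have hfree : t'.Free (Z ∪ B') := by
    intro x hx
    have hO : (x.1, x.2) ∉ O := fun h => (Finset.mem_sdiff.1 h).2 hx
    rw [ext_f, if_neg hO]
    rcases Finset.mem_union.1 hx with h | h
    · exact hb.free x (Finset.mem_union_left _ h)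
    · rcases Finset.mem_union.1 h with h | h
      · exact hb.free x (Finset.mem_union_right _ h)
      · exact (hB1 x h).2.2
  let γ1 : Finset (ℕ × ℕ) := tr z1 B1
  let γ2 : Finset (ℕ × ℕ) := tr z2 B1
  have hγ1 : γ1 ⊆ B1 := tr_subset z1 B1
  have hγ2 : γ2 ⊆ B1 := tr_subset z2 B1
  have hB1B : ∀ x ∈ B1, x ∉ B := fun x hx h => (hB1 x hx).2.1 (Finset.mem_union_right _ h)
  have hB1Z : ∀ x ∈ B1, x ∉ Z := fun x hx h => (hB1 x hx).2.1 (Finset.mem_union_left _ h)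
  -- the value at the places of `G n`
  have hval : ∀ (z : ℕ → ℕ → Bool) (δ γ : Finset (ℕ × ℕ)), δ ⊆ B → γ ⊆ B1 → t'.Ext z →
      tr z Z = ζ → tr z B' = δ ∪ γ → ∀ x,
      (x ∈ Z → (z x.1 x.2 = true ↔ x ∈ ζ)) ∧ (x ∈ B → (z x.1 x.2 = true ↔ x ∈ δ)) ∧
      (x ∈ B1 → (z x.1 x.2 = true ↔ x ∈ γ)) ∧ (x ∈ O → z x.1 x.2 = z1 x.1 x.2) := by
    intro z δ γ hδ hγ hz h3 h4 x
    refine ⟨fun hx => value_of_tr h3 hx, fun hx => ?_, fun hx => ?_, fun hx => ?_⟩
    · rw [value_of_tr h4 (Finset.mem_union_left _ hx), Finset.mem_union]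
      exact ⟨fun h => h.resolve_right fun h' => hB1B x (hγ h') hx, Or.inl⟩
    · rw [value_of_tr h4 (Finset.mem_union_right _ hx), Finset.mem_union]
      exact ⟨fun h => h.resolve_left fun h' => hB1B x hx (hδ h'), Or.inr⟩
    · exact hz _ _ _ (ext_tr_f hx)
  -- the values of `z1` and `z2`
  have hz12 : ∀ z, (t.ext (Z ∪ B) (ζ ∪ β i)).Ext z → ∀ x,
      (x ∈ Z → (z x.1 x.2 = true ↔ x ∈ ζ)) ∧ (x ∈ B → (z x.1 x.2 = true ↔ x ∈ β i)) := by
    intro z hz x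
    constructor
    · intro hx
      rw [value_of_ext hz (Finset.mem_union_left _ hx), Finset.mem_union]
      exact ⟨fun h => h.resolve_right fun h' => hZB x hx (hb.sub i h'), Or.inl⟩
    · intro hx
      rw [value_of_ext hz (Finset.mem_union_right _ hx), Finset.mem_union]
      exact ⟨fun h => h.resolve_left fun h' => hZB x (hζ h') hx, Or.inr⟩
  have hcase : ∀ x ∈ d.G n, x ∈ Z ∨ x ∈ B ∨ x ∈ B1 ∨ x ∈ O := by
    intro x hx
    by_cases h1 : x ∈ Z
    · exact Or.inl h1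
    · by_cases h2 : x ∈ B
      · exact Or.inr (Or.inl h2)
      · by_cases h3 : x ∈ B1
        · exact Or.inr (Or.inr (Or.inl h3))
        · refine Or.inr (Or.inr (Or.inr (Finset.mem_sdiff.2 ⟨hx, fun h => ?_⟩)))
          rcases Finset.mem_union.1 h with h | h
          · exact h1 h
          · rcases Finset.mem_union.1 h with h | h
            · exact h2 h
            · exact h3 h
  have hW1 : d.W.Ext z1 := h1.mono (hti.trans ht)
  have hW2 : d.W.Ext z2 := h2.mono (hti.trans ht)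
  have claim1 : ∀ z, t'.Ext z → tr z Z = ζ → tr z B' = β i ∪ γ1 →
      (n ∈ d.X z ↔ n ∈ d.X z1) := by
    intro z hz h3 h4
    refine d.cont n z z1 (hz.mono (ht'.trans ht)) hW1 fun x hx => ?_
    obtain ⟨a1, a2, a3, a4⟩ := hval z _ _ (hb.sub i) hγ1 hz h3 h4 x
    obtain ⟨b1, b2⟩ := hz12 z1 h1 x
    rcases hcase x hx with h | h | h | h
    · exact eq_of_iff ((a1 h).trans (b1 h).symm)
    · exact eq_of_iff ((a2 h).trans (b2 h).symm)
    · refine eq_of_iff ((a3 h).trans ?_)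
      rw [mem_tr]
      exact ⟨fun h' => h'.2, fun h' => ⟨h, h'⟩⟩
    · exact a4 h
  have claim2 : ∀ z, t'.Ext z → tr z Z = ζ → tr z B' = β i ∪ γ2 →
      (n ∈ d.X z ↔ n ∈ d.X z2) := by
    intro z hz h3 h4
    refine d.cont n z z2 (hz.mono (ht'.trans ht)) hW2 fun x hx => ?_
    obtain ⟨a1, a2, a3, a4⟩ := hval z _ _ (hb.sub i) hγ2 hz h3 h4 x
    obtain ⟨b1, b2⟩ := hz12 z2 h2 x
    rcases hcase x hx with h | h | h | h
    · exact eq_of_iff ((a1 h).trans (b1 h).symm)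
    · exact eq_of_iff ((a2 h).trans (b2 h).symm)
    · refine eq_of_iff ((a3 h).trans ?_)
      rw [mem_tr]
      exact ⟨fun h' => h'.2, fun h' => ⟨h, h'⟩⟩
    · rw [a4 h]
      by_contra hc
      refine (Finset.mem_sdiff.1 h).2 (Finset.mem_union_right _ (Finset.mem_union_right _ ?_))
      exact Finset.mem_filter.2 ⟨hx, hc⟩
  have claim3 : ∀ z z', t'.Ext z → t'.Ext z' → tr z Z = ζ → tr z' Z = ζ →
      tr z B' = β i' ∪ γ1 → tr z' B' = β i' ∪ γ1 → (n ∈ d.X z ↔ n ∈ d.X z') := by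
    intro z z' hz hz' h3 h4 h5 h6
    refine d.cont n z z' (hz.mono (ht'.trans ht)) (hz'.mono (ht'.trans ht)) fun x hx => ?_
    obtain ⟨a1, a2, a3, a4⟩ := hval z _ _ (hb.sub i') hγ1 hz h3 h5 x
    obtain ⟨b1, b2, b3, b4⟩ := hval z' _ _ (hb.sub i') hγ1 hz' h4 h6 x
    rcases hcase x hx with h | h | h | h
    · exact eq_of_iff ((a1 h).trans (b1 h).symm)
    · exact eq_of_iff ((a2 h).trans (b2 h).symm)
    · exact eq_of_iff ((a3 h).trans (b3 h).symm)
    · rw [a4 h, b4 h]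
  -- a point for the other candidate
  obtain ⟨z3, hz3⟩ := (t'.ext (Z ∪ B') (ζ ∪ (β i' ∪ γ1))).exists_ext
  have hz3t : t'.Ext z3 := hz3.mono (ext_le hfree)
  have hz3Z : tr z3 Z = ζ := by
    ext x
    rw [mem_tr]
    constructor
    · rintro ⟨hx, h⟩
      have h' := (value_of_ext hz3 (Finset.mem_union_left _ hx)).1 h
      rcases Finset.mem_union.1 h' with h' | h'
      · exact h'
      · rcases Finset.mem_union.1 h' with h' | h'
        · exact absurd (hb.sub i' h') (hZB x hx)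
        · exact absurd hx (hB1Z x (hγ1 h'))
    · intro hx
      exact ⟨hζ hx, (value_of_ext hz3 (Finset.mem_union_left _ (hζ hx))).2
        (Finset.mem_union_left _ hx)⟩
  have hz3B : tr z3 B' = β i' ∪ γ1 := by
    ext x
    rw [mem_tr]
    constructor
    · rintro ⟨hx, h⟩
      have h' := (value_of_ext hz3 (Finset.mem_union_right _ hx)).1 h
      rcases Finset.mem_union.1 h' with h' | h'
      · exfalso
        rcases Finset.mem_union.1 hx with h'' | h''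
        · exact hZB x (hζ h') h''
        · exact hB1Z x h'' (hζ h')
      · exact h'
    · intro hx
      have hx' : x ∈ B' := by
        rcases Finset.mem_union.1 hx with h | h
        · exact Finset.mem_union_left _ (hb.sub i' h)
        · exact Finset.mem_union_right _ (hγ1 h)
      exact ⟨hx', (value_of_ext hz3 (Finset.mem_union_right _ hx')).2
        (Finset.mem_union_right _ hx)⟩
  -- the choice of the candidate
  have hchoice : ∃ γ ⊆ B1, ∀ z, t'.Ext z → tr z Z = ζ → tr z B' = β i ∪ γ →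
      ¬ (n ∈ d.X z ↔ n ∈ d.X z3) := by
    by_cases hc : (n ∈ d.X z1 ↔ n ∈ d.X z3)
    · refine ⟨γ2, hγ2, fun z hz h3 h4 h5 => hn ?_⟩
      rw [← claim2 z hz h3 h4, h5, hc]
    · refine ⟨γ1, hγ1, fun z hz h3 h4 h5 => hc ?_⟩
      rw [← claim1 z hz h3 h4, h5]
  obtain ⟨γ, hγ, hγ'⟩ := hchoice
  let β' : Fin M → Finset (ℕ × ℕ) := fun l => if l = i then β i ∪ γ else β l ∪ γ1
  have hβi : β' i = β i ∪ γ := if_pos rfl
  have hβi' : β' i' = β i' ∪ γ1 := if_neg hi.symm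
  have hinter : ∀ l δ, δ ⊆ B1 → (β l ∪ δ) ∩ B = β l := by
    intro l δ hδ
    ext x
    rw [Finset.mem_inter, Finset.mem_union]
    constructor
    · rintro ⟨h | h, hB⟩
      · exact h
      · exact absurd hB (hB1B x (hδ h))
    · exact fun h => ⟨Or.inl h, hb.sub l h⟩
  refine ⟨t', ht', B', β', Finset.subset_union_left, ⟨hfree, ?_, ?_, ?_⟩, ?_, n + 1, ?_⟩
  · rw [Finset.disjoint_left]
    intro x hx hx'
    rcases Finset.mem_union.1 hx' with h | h
    · exact hZB x hx h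
    · exact hB1Z x h hx
  · intro x hx
    rcases Finset.mem_union.1 hx with h | h
    · exact hb.root x h
    · exact (hB1 x h).1
  · intro l
    simp only [β']
    split_ifs with hl
    · exact Finset.union_subset_union (hb.sub i) hγ
    · exact Finset.union_subset_union (hb.sub l) hγ1
  · intro l
    simp only [β']
    split_ifs with hl
    · rw [hl]
      exact hinter i γ hγ
    · exact hinter l γ1 hγ1
  · intro z z' hz hz' h3 h4 h5 h6
    refine ⟨n, Nat.lt_succ_self n, ?_⟩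
    rw [hβi] at h5
    rw [hβi'] at h6
    rw [claim3 z' z3 hz' hz3t h4 hz3Z h6 hz3B]
    exact hγ' z hz h3 h5

theorem exists_block (d : Data) (M : ℕ) (Z : Finset (ℕ × ℕ)) (t : Silver ℕ) (ht : t ≤ d.W)
    (hZ : t.Free Z) : ∃ t' ≤ t, ∃ B β, IsBlock d M Z t' B β ∧
      ∃ m, ∀ ζ ⊆ Z, ∀ i i', i ≠ i' → Sep d t' Z B ζ (β i) (β i') m := by
  classical
  have key : ∀ 𝒯 : Finset (Finset (ℕ × ℕ) × Fin M × Fin M),
      ∃ t' ≤ t, ∃ B β, IsBlock d M Z t' B β ∧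
        ∃ m, ∀ x ∈ 𝒯, x.1 ⊆ Z → x.2.1 ≠ x.2.2 → Sep d t' Z B x.1 (β x.2.1) (β x.2.2) m := by
    intro 𝒯
    induction 𝒯 using Finset.induction_on with
    | empty =>
      refine ⟨t, le_rfl, ∅, fun _ => ∅, ⟨?_, ?_, ?_, fun _ => Finset.Subset.rfl⟩, 0, ?_⟩
      · rw [Finset.union_empty]
        exact hZ
      · exact Finset.disjoint_empty_right Z
      · exact fun x hx => absurd hx (Finset.notMem_empty x)
      · exact fun x hx => absurd hx (Finset.notMem_empty x)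
    | insert x 𝒯 _ ih =>
      obtain ⟨t', ht', B, β, hb, m, hm⟩ := ih
      by_cases hx : x.1 ⊆ Z ∧ x.2.1 ≠ x.2.2
      · obtain ⟨t'', ht'', B', β', hBB', hb', hint, m', hm'⟩ :=
          sep_step d (ht'.trans ht) hb hx.1 hx.2
        refine ⟨t'', ht''.trans ht', B', β', hb', max m m', fun y hy h1 h2 => ?_⟩
        rcases Finset.mem_insert.1 hy with rfl | hy
        · exact hm'.mono le_rfl (le_max_right _ _)
        · exact ((hm y hy h1 h2).enlarge hBB' (hint _) (hint _)).mono ht'' (le_max_left _ _)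
      · refine ⟨t', ht', B, β, hb, m, fun y hy h1 h2 => ?_⟩
        rcases Finset.mem_insert.1 hy with rfl | hy
        · exact absurd ⟨h1, h2⟩ hx
        · exact hm y hy h1 h2
  obtain ⟨t', ht', B, β, hb, m, hm⟩ := key (Z.powerset ×ˢ Finset.univ ×ˢ Finset.univ)
  refine ⟨t', ht', B, β, hb, m, fun ζ hζ i i' hii' => hm (ζ, i, i') ?_ hζ hii'⟩
  simp [hζ]

/-- **The tree of candidates.** -/
theorem exists_tree (d : Data) (M : ℕ → ℕ → ℕ) : ∃ t ≤ d.W, ∃ (F F' : ℕ → Finset (ℕ × ℕ))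
    (β : ℕ → ℕ → Finset (ℕ × ℕ)) (m : ℕ → ℕ), (∀ n, F n ⊆ F' n) ∧ (∀ n, F' n ⊆ F (n + 1)) ∧
      (∀ n, t.Free (F' n)) ∧ (∀ n l, β n l ⊆ F' n \ F n) ∧ (∀ n, ∀ x ∈ F' n \ F n, x.1 ∉ d.ρ) ∧
      (∀ n, ∀ ζ ⊆ F n, ∀ i i', i < M n (F n).card → i' < M n (F n).card → i ≠ i' →
        Sep d t (F n) (F' n \ F n) ζ (β n i) (β n i') (m n)) ∧
      ∀ i, (i ∈ t.supp ∨ ∃ n m, (i, m) ∈ F' n) →
        {m | ∃ n, (i, m) ∈ F (n + 1) ∧ (i, m) ∉ F' n}.Infinite := by
  classical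
  obtain ⟨t, ht, F, F', -, h1, h2, h3, h4, -, h6⟩ := fusion
    (fun n F F' q => ∃ (β : ℕ → Finset (ℕ × ℕ)) (m : ℕ), (∀ l, β l ⊆ F' \ F) ∧
      (∀ x ∈ F' \ F, x.1 ∉ d.ρ) ∧ ∀ ζ ⊆ F, ∀ i i', i < M n F.card → i' < M n F.card → i ≠ i' →
        Sep d q F (F' \ F) ζ (β i) (β i') m)
    (by
      rintro n F F' q q' hq - ⟨β, m, h1, h2, h3⟩
      exact ⟨β, m, h1, h2, fun ζ hζ i i' hi hi' hii' => (h3 ζ hζ i i' hi hi' hii').mono hq le_rfl⟩)
    d.W
    (by
      intro n F p' hp' hF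
      obtain ⟨q, hq, B, β, hb, m, hm⟩ := exists_block d (M n F.card) F p' hp' hF
      have hB : (F ∪ B) \ F = B := by
        rw [Finset.union_sdiff_left]
        exact Finset.sdiff_eq_self_of_disjoint hb.disj.symm
      refine ⟨q, hq, F ∪ B, Finset.subset_union_left, hb.free,
        fun l => if h : l < M n F.card then β ⟨l, h⟩ else ∅, m, fun l => ?_, ?_, ?_⟩
      · rw [hB]
        show (if h : l < M n F.card then β ⟨l, h⟩ else ∅) ⊆ B
        split_ifs with h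
        · exact hb.sub _
        · exact Finset.empty_subset _
      · rw [hB]
        exact hb.root
      · intro ζ hζ i i' hi hi' hii'
        rw [hB]
        show Sep d q F B ζ (if h : i < M n F.card then β ⟨i, h⟩ else ∅)
          (if h : i' < M n F.card then β ⟨i', h⟩ else ∅) m
        rw [dif_pos hi, dif_pos hi']
        exact hm ζ hζ _ _ fun h => hii' (Fin.mk.inj h))
  choose β m h7 h8 h9 using h4
  exact ⟨t, ht, F, F', β, m, h1, h2, h3, h7, h8, h9, h6⟩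

end Pool.Agent.H87.Luz.Silver
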