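import Mathlib
import Pool.Agent.H87.CPos.Defs

/-!
# Singular Luzin sets: the combinatorial principles and their forced versions

The names and the forcing clauses are those of `Helper292.ForceCH`.
-/

set_option autoImplicit false

namespace Pool.Agent.H87.Luz

open Cardinal Set
open Pool.Agent.Helper292.ForceCH (fnot fand fall fimp fiff fex fground meets IsFun Om)
open Pool.Agent.H87.CPos (Distinct)

/-! ### The plain statements -/

/-- Boxes with rational corners in `ℝ ^ n`, given by their sides. -/
abbrev Box (n : ℕ) : Type := Fin n → {I : ℚ × ℚ // I.1 < I.2}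

/-- The box `J` is contained in the box `I`. -/
def BoxLe {n : ℕ} (J I : Box n) : Prop := ∀ i, (I i).1.1 ≤ (J i).1.1 ∧ (J i).1.2 ≤ (I i).1.2

/-- For each `m` the boxes `I` with `(m, I) ∈ U` are dense. -/
def DenseCode {n : ℕ} (U : Set (ℕ × Box n)) : Prop :=
  ∀ (m : ℕ) (I : Box n), ∃ J, BoxLe J I ∧ (m, J) ∈ U

/-- For each `m` the boxes `I` with `(m, I) ∈ U` are closed under passing to smaller boxes. -/
def OpenCode {n : ℕ} (U : Set (ℕ × Box n)) : Prop :=
  ∀ (m : ℕ) (I J : Box n), BoxLe J I → (m, I) ∈ U → (m, J) ∈ U

/-- The cofinality of the meagre ideal of `ℝ ^ n` is at most `ω₁`: some `ω₁` codes of sequences of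
dense open sets are enough. -/
def CofAx (n : ℕ) : Prop :=
  ∃ D : Om → Set (ℕ × Box n), (∀ a, DenseCode (D a)) ∧
    ∀ U : Set (ℕ × Box n), DenseCode U → OpenCode U → ∃ a, D a ⊆ U

/-- The family `X` of subsets of `ℕ` does not have strong measure zero: for some finite sets `E n`
of natural numbers no sets `S n` cover `X`, in the sense that each `X j` agrees with some `S n`
on `E n`. (The sets `E n` and `S n` are the sections of `E` and `S`.) -/
def NotSMZ {Λ : Type} (X : Λ → Set ℕ) : Prop :=
  ∃ E : Set (ℕ × ℕ), (∀ n, ∃ b, ∀ m, (n, m) ∈ E → m < b) ∧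
    ∀ S : Set (ℕ × ℕ), ∃ j, ∀ n, ∃ m, (n, m) ∈ E ∧ ¬ (m ∈ X j ↔ (n, m) ∈ S)

/-- `K` is the union of the increasing sets `k a`, `a < ω₁`, and `k a₀` is uncountable. -/
def Filtration {K : Type} (k : Om → Set K) (a₀ : Om) : Prop :=
  (∀ a b, a ≤ b → k a ⊆ k b) ∧ (∀ x, ∃ a, x ∈ k a) ∧
    ∃ g : Om → K, Function.Injective g ∧ ∀ a, g a ∈ k a₀

/-- There are sets `k a` of size less than `|K|`, increasing with union `K`, such that `K` has at
most `2 ^ ω` elements, the cofinality of the meagre ideal is at most `ω₁`, and no set of reals of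
the size of `k a₀` has strong measure zero. -/
def SingAx : Prop :=
  ∃ (K : Type) (k : Om → Set K) (a₀ : Om), Filtration k a₀ ∧
    (∀ a, ¬ ∃ F : K → k a, Function.Injective F) ∧
    (∃ Y : K → Set ℕ, Function.Injective Y) ∧ (∀ n, CofAx n) ∧
    ∀ X : k a₀ → Set ℕ, Function.Injective X → NotSMZ X

/-! ### The corresponding sentences of the forcing language -/

section

variable {P : Type} [Preorder P]

/-- The set of codes named by `U` is dense for each `m`. -/
def DenseName {n : ℕ} (U : ℕ × Box n → Set P) : Set P :=
  fall fun m : ℕ => fall fun I : Box n => fex fun J : Box n =>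
    fand (fground (BoxLe J I)) (meets (U (m, J)))

/-- The set of codes named by `U` is closed under passing to smaller boxes. -/
def OpenName {n : ℕ} (U : ℕ × Box n → Set P) : Set P :=
  fall fun m : ℕ => fall fun I : Box n => fall fun J : Box n => fall fun _ : BoxLe J I =>
    fimp (meets (U (m, I))) (meets (U (m, J)))

/-- The family of subsets of `ℕ` named by `X` does not have strong measure zero. -/
def NotSMZName {Λ : Type} (X : Λ → ℕ → Set P) : Set P :=
  fex fun E : ℕ × ℕ → Set P =>
    fand (fall fun n : ℕ => fex fun b : ℕ => fall fun m : ℕ =>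
        fimp (meets (E (n, m))) (fground (m < b)))
      (fall fun S : ℕ × ℕ → Set P => fex fun j : Λ => fall fun n : ℕ => fex fun m : ℕ =>
        fand (meets (E (n, m))) (fnot (fiff (meets (X j m)) (meets (S (n, m))))))

variable (P)

/-- In the extension the cofinality of the meagre ideal of `ℝ ^ n` is at most `ω₁`. -/
def CofHolds (n : ℕ) : Set P :=
  fex fun D : Om → ℕ × Box n → Set P =>
    fand (fall fun a => DenseName (D a))
      (fall fun U : ℕ × Box n → Set P => fimp (fand (DenseName U) (OpenName U))
        (fex fun a : Om => fall fun z : ℕ × Box n => fimp (meets (D a z)) (meets (U z))))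

/-- In the extension there is an injection from `X` to `Y`. -/
def InjHolds (X Y : Type) : Set P :=
  fex fun F : X → Y → Set P => fand (IsFun F)
    (fall fun x => fall fun x' => fall fun y =>
      fimp (fand (meets (F x y)) (meets (F x' y))) (fground (x = x')))

/-- The principle `SingAx` holds in the extension. -/
def SingHolds : Set P :=
  fex fun K : Type => fex fun k : Om → Set K => fex fun a₀ : Om =>
    fand (fground (Filtration k a₀))
    (fand (fall fun a : Om => fnot (InjHolds P K (k a)))
    (fand (fex fun Y : K → ℕ → Set P => Distinct Y)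
    (fand (fall fun n : ℕ => CofHolds P n)
    (fall fun X : k a₀ → ℕ → Set P => fimp (Distinct X) (NotSMZName X)))))

end

end Pool.Agent.H87.Luz
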