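import Pool.Agent.H87.Luz.Silver
import Pool.Agent.H87.Lib.Helper292.ForceCH

/-!
# A Delta system lemma for countable sets
-/

set_option autoImplicit false

namespace Pool.Agent.H87.Luz

open Cardinal Set
open Pool.Agent.Helper292.ForceCH (Om countable_Iio exists_bound)

/-- the countable set enumerated by `u` -/
def enumSet {K : Type} {A : Set K} (u : ℕ → Option A) : Set K := {x | ∃ n y, u n = some y ∧ y.1 = x}

theorem enumSet_countable {K : Type} {A : Set K} (u : ℕ → Option A) : (enumSet u).Countable := by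
  have h : enumSet u ⊆ ⋃ n, {x | ∃ y, u n = some y ∧ y.1 = x} := by
    rintro x ⟨n, y, h1, h2⟩
    exact mem_iUnion.2 ⟨n, y, h1, h2⟩
  refine (countable_iUnion fun n => ?_).mono h
  refine Set.Subsingleton.countable ?_
  rintro x ⟨y, h1, rfl⟩ x' ⟨y', h1', rfl⟩
  rw [h1] at h1'
  rw [Option.some.inj h1']

theorem exists_enum {K : Type} {A r : Set K} (hr : r.Countable) (hA : r ⊆ A) :
    ∃ u : ℕ → Option A, enumSet u = r := by
  rcases r.eq_empty_or_nonempty with rfl | hne
  · refine ⟨fun _ => none, ?_⟩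
    ext x
    simp [enumSet]
  · obtain ⟨g, hg⟩ := hr.exists_eq_range hne
    refine ⟨fun n => some ⟨g n, hA (hg ▸ mem_range_self n)⟩, ?_⟩
    ext x
    constructor
    · rintro ⟨n, y, h1, h2⟩
      have h3 : g n ∈ r := hg ▸ mem_range_self n
      rw [← h2, ← Option.some.inj h1]
      exact h3
    · intro hx
      obtain ⟨n, rfl⟩ : x ∈ range g := hg ▸ hx
      exact ⟨n, _, rfl, rfl⟩

theorem mk_enum_le {K : Type} {A : Set K} (hA : #A ≤ 𝔠) : #(ℕ → Option A) ≤ 𝔠 := by
  have h : #(Option A) ≤ 𝔠 := by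
    rw [mk_option]
    refine (add_le_add hA (one_lt_aleph0.le.trans aleph0_le_continuum)).trans ?_
    rw [Cardinal.add_eq_self aleph0_le_continuum]
  rw [← power_def, mk_nat]
  refine (Cardinal.power_le_power_right h).trans ?_
  rw [continuum_power_aleph0]

theorem mk_iUnion_le_continuum {ι K : Type} (hι : #ι ≤ 𝔠) (S : ι → Set K) (hS : ∀ i, #(S i) ≤ 𝔠) :
    #(⋃ i, S i) ≤ 𝔠 := by
  refine mk_iUnion_le_sum_mk.trans ?_
  refine (sum_le_sum _ (fun _ => 𝔠) hS).trans ?_
  rw [sum_const']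
  exact (mul_le_mul' hι le_rfl).trans continuum_mul_self.le

theorem mk_countable_le {K : Type} {s : Set K} (hs : s.Countable) : #s ≤ 𝔠 :=
  (le_aleph0_iff_set_countable.2 hs).trans aleph0_le_continuum

/-- **Delta system lemma** for countable sets with a colouring depending on the root. -/
theorem delta {Λ K C : Type} (a : Λ → Set K) (ha : ∀ j, (a j).Countable) (hC : #C ≤ 𝔠)
    (c : Set K → Λ → C) (hΛ : 𝔠 < #Λ) : ∃ (r : Set K) (γ : C), r.Countable ∧
      ∀ b : Set K, b.Countable → ∀ E : Set Λ, E.Countable →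
        ∃ j, j ∉ E ∧ r ⊆ a j ∧ a j ∩ b ⊆ r ∧ c r j = γ := by
  by_contra hcon
  push Not at hcon
  have hcon' : ∀ (r : Set K) (γ : C), ∃ (b : Set K) (E : Set Λ), b.Countable ∧ E.Countable ∧
      (r.Countable → ∀ j, j ∉ E → r ⊆ a j → a j ∩ b ⊆ r → c r j ≠ γ) := by
    intro r γ
    by_cases hr : r.Countable
    · obtain ⟨b, hb, E, hE, h⟩ := hcon r γ hr
      exact ⟨b, E, hb, hE, fun _ => h⟩
    · exact ⟨∅, ∅, countable_empty, countable_empty, fun h => absurd h hr⟩
  choose b E hb hE h using hcon'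
  let Cl : Set K → Set K := fun A => A ∪ ⋃ x : (ℕ → Option A) × C, b (enumSet x.1) x.2
  let B : Om → Set K := IsWellFounded.fix (· < ·) fun ξ B => ⋃ η : {η : Om // η < ξ}, Cl (B η.1 η.2)
  have hB : ∀ ξ, B ξ = ⋃ η : {η : Om // η < ξ}, Cl (B η.1) := fun ξ => IsWellFounded.fix_eq _ _ ξ
  have hClc : ∀ A : Set K, #A ≤ 𝔠 → #(Cl A) ≤ 𝔠 := by
    intro A hA
    refine (mk_union_le _ _).trans ?_
    refine (add_le_add hA (mk_iUnion_le_continuum ?_ _ fun x => mk_countable_le (hb _ _))).trans ?_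
    · rw [mk_prod, Cardinal.lift_id, Cardinal.lift_id]
      exact (mul_le_mul' (mk_enum_le hA) hC).trans continuum_mul_self.le
    · rw [Cardinal.add_eq_self aleph0_le_continuum]
  have hBc : ∀ ξ, #(B ξ) ≤ 𝔠 := by
    intro ξ
    induction ξ using WellFoundedLT.induction with
    | ind ξ ih =>
      rw [hB ξ]
      have := countable_Iio ξ
      exact mk_iUnion_le_continuum ((mk_le_aleph0_iff.2 this).trans aleph0_le_continuum) _
        fun η => hClc _ (ih η.1 η.2)
  have hOm : #Om ≤ 𝔠 := by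
    have h1 : #Om = ℵ₁ := by simp
    rw [h1]
    exact aleph_one_le_continuum
  have hmono : ∀ η ξ, η < ξ → Cl (B η) ⊆ B ξ := by
    intro η ξ hηξ
    rw [hB ξ]
    exact subset_iUnion (fun η : {η : Om // η < ξ} => Cl (B η.1)) ⟨η, hηξ⟩
  let BB : Set K := ⋃ ξ, B ξ
  have hBB : #BB ≤ 𝔠 := mk_iUnion_le_continuum hOm _ hBc
  let EE : Set Λ := ⋃ x : (ℕ → Option BB) × C, E (enumSet x.1) x.2
  have hEE : #EE ≤ 𝔠 := by
    refine mk_iUnion_le_continuum ?_ _ fun x => mk_countable_le (hE _ _)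
    rw [mk_prod, Cardinal.lift_id, Cardinal.lift_id]
    exact (mul_le_mul' (mk_enum_le hBB) hC).trans continuum_mul_self.le
  obtain ⟨j, hj⟩ : ∃ j, j ∉ EE := by
    by_contra hc
    push Not at hc
    have h1 : EE = Set.univ := eq_univ_of_forall hc
    rw [h1, mk_univ] at hEE
    exact absurd hEE (not_le.2 hΛ)
  have hrc : (a j ∩ BB).Countable := (ha j).mono inter_subset_left
  obtain ⟨u, hu⟩ := exists_enum hrc inter_subset_right
  -- the root is contained in some `B ξ`
  obtain ⟨ξ, hξ⟩ : ∃ ξ, a j ∩ BB ⊆ B ξ := by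
    rcases (a j ∩ BB).eq_empty_or_nonempty with he | hne
    · obtain ⟨ξ, -⟩ := exists_bound fun _ => Classical.arbitrary Om
      exact ⟨ξ, he ▸ empty_subset _⟩
    · obtain ⟨g, hg⟩ := hrc.exists_eq_range hne
      have h1 : ∀ n, ∃ ξ, g n ∈ B ξ := fun n => by
        have h2 : g n ∈ a j ∩ BB := hg ▸ mem_range_self n
        exact mem_iUnion.1 h2.2
      choose η hη using h1
      obtain ⟨ξ, hξ⟩ := exists_bound η
      refine ⟨ξ, ?_⟩
      rw [hg]
      rintro _ ⟨n, rfl⟩
      exact hmono _ _ (hξ n) (Or.inl (hη n))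
  obtain ⟨u', hu'⟩ := exists_enum hrc hξ
  refine h (a j ∩ BB) (c (a j ∩ BB) j) hrc j ?_ inter_subset_left ?_ rfl
  · intro hj'
    refine hj (mem_iUnion.2 ⟨(u, c (a j ∩ BB) j), ?_⟩)
    show j ∈ E (enumSet u) _
    rw [hu]
    exact hj'
  · rintro x ⟨hx, hx'⟩
    refine ⟨hx, ?_⟩
    obtain ⟨ξ', hξ'⟩ := exists_bound fun _ => ξ
    refine mem_iUnion.2 ⟨ξ', hmono ξ ξ' (hξ' 0) (Or.inr (mem_iUnion.2 ⟨(u', c (a j ∩ BB) j), ?_⟩))⟩
    show x ∈ b (enumSet u') _
    rw [hu']
    exact hx'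

namespace Silver

/-- **Chain condition**: among more than continuum many conditions two are compatible. -/
theorem compatible {Λ K : Type} (p : Λ → Silver K) (hΛ : 𝔠 < #Λ) :
    ∃ i j, i ≠ j ∧ ∃ r, r ≤ p i ∧ r ≤ p j := by
  classical
  have hex : ∀ r : Set K, ∃ g : ℕ → Option (Set.univ : Set K), r.Countable → enumSet g = r := by
    intro r
    by_cases hr : r.Countable
    · obtain ⟨g, hg⟩ := exists_enum hr (subset_univ r)
      exact ⟨g, fun _ => hg⟩
    · exact ⟨fun _ => none, fun h => absurd h hr⟩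
  choose g hg using hex
  obtain ⟨r, γ, hr, h⟩ := delta (C := ℕ → ℕ → Option Bool) (fun j => (p j).supp)
    (fun j => (p j).supp_ctb) (by
      simp only [← power_def, mk_nat, mk_option, mk_bool]
      have h1 : ((2 : Cardinal.{0}) + 1) ^ ℵ₀ ≤ 𝔠 := by
        refine (Cardinal.power_le_power_right (show (2 : Cardinal.{0}) + 1 ≤ ℵ₀ from ?_)).trans ?_
        · exact (add_lt_aleph0 (natCast_lt_aleph0 (n := 2)) one_lt_aleph0).le
        · rw [aleph0_power_aleph0]
      refine (Cardinal.power_le_power_right h1).trans ?_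
      rw [continuum_power_aleph0])
    (fun r j n m => (g r n).elim none fun x => (p j).f x.1 m) hΛ
  obtain ⟨i, -, -, -, hi⟩ := h ∅ countable_empty ∅ countable_empty
  obtain ⟨j, hj, -, hj', hj''⟩ := h (p i).supp (p i).supp_ctb {i} (countable_singleton i)
  have hagree : ∀ x ∈ r, ∀ m, (p i).f x m = (p j).f x m := by
    intro x hx m
    rw [← hg r hr] at hx
    obtain ⟨n, y, h1, rfl⟩ := hx
    have h2 := congrFun (congrFun (hi.trans hj''.symm) n) m
    simpa [h1] using h2
  have hcase : ∀ x, (∀ m, (p i).f x m = (p j).f x m) ∨ (∀ m, (p i).f x m = none) ∨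
      ∀ m, (p j).f x m = none := by
    intro x
    by_cases h1 : x ∈ (p i).supp
    · by_cases h2 : x ∈ (p j).supp
      · exact Or.inl (hagree x (hj' ⟨h2, h1⟩))
      · exact Or.inr (Or.inr (f_of_not_supp h2))
    · exact Or.inr (Or.inl (f_of_not_supp h1))
  refine ⟨i, j, fun h1 => hj (by rw [h1]; rfl), ⟨fun x m => ((p i).f x m).or ((p j).f x m), ?_, ?_⟩,
    ?_, ?_⟩
  · refine ((p i).supp_ctb.union (p j).supp_ctb).mono ?_
    rintro x ⟨m, hm⟩
    by_contra hc
    rw [mem_union, not_or] at hc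
    rw [f_of_not_supp hc.1, f_of_not_supp hc.2] at hm
    exact hm rfl
  · intro x
    rcases hcase x with h1 | h1 | h1
    · refine ((p j).free_infinite x).mono fun m hm => ?_
      show ((p i).f x m).or ((p j).f x m) = none
      rw [h1 m, (hm : (p j).f x m = none)]
      rfl
    · refine ((p j).free_infinite x).mono fun m hm => ?_
      show ((p i).f x m).or ((p j).f x m) = none
      rw [h1 m, (hm : (p j).f x m = none)]
      rfl
    · refine ((p i).free_infinite x).mono fun m hm => ?_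
      show ((p i).f x m).or ((p j).f x m) = none
      rw [h1 m, (hm : (p i).f x m = none)]
      rfl
  · intro x m b hb
    show ((p i).f x m).or ((p j).f x m) = some b
    rw [hb]
    rfl
  · intro x m b hb
    show ((p i).f x m).or ((p j).f x m) = some b
    rcases hcase x with h1 | h1 | h1
    · rw [h1 m, hb]
      rfl
    · rw [h1 m, hb]
      rfl
    · rw [h1 m] at hb
      exact absurd hb (by simp)

end Silver

end Pool.Agent.H87.Luz
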