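import Pool.Agent.H87.Luz.Silver

/-!
# The fusion theorem
-/

set_option autoImplicit false

namespace Pool.Agent.H87.Luz.Silver

open Set

variable {K : Type}

/-- the limit of a decreasing sequence -/
theorem exists_limit (q : ℕ → Silver K) (hq : ∀ n, q (n + 1) ≤ q n)
    (hi : ∀ i, (∃ n, i ∈ (q n).supp) → {m | ∀ n, (q n).f i m = none}.Infinite) :
    ∃ w : Silver K, (∀ n, w ≤ q n) ∧ (∀ i m, (∀ n, (q n).f i m = none) → w.f i m = none) ∧
      ∀ i, i ∈ w.supp → ∃ n, i ∈ (q n).supp := by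
  classical
  have hanti : ∀ n m, n ≤ m → q m ≤ q n := fun n m h => antitone_nat_of_succ_le hq h
  let g : K → ℕ → Option Bool := fun i m =>
    if h : ∃ n, (q n).f i m ≠ none then (q (Nat.find h)).f i m else none
  have hg0 : ∀ i m, (∀ n, (q n).f i m = none) → g i m = none := by
    intro i m h
    have h1 : ¬ ∃ n, (q n).f i m ≠ none := by
      rintro ⟨n, hn⟩
      exact hn (h n)
    simp only [g, dif_neg h1]
  have hg1 : ∀ i m n b, (q n).f i m = some b → g i m = some b := by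
    intro i m n b hb
    have h : ∃ n, (q n).f i m ≠ none := ⟨n, by rw [hb]; simp⟩
    obtain ⟨c, hc⟩ := Option.ne_none_iff_exists'.1 (Nat.find_spec h)
    simp only [g, dif_pos h]
    rcases le_total (Nat.find h) n with h' | h'
    · have h2 := hanti _ _ h' i m c hc
      rw [hb] at h2
      rw [hc, ← h2]
    · exact hanti _ _ h' i m b hb
  have hg2 : ∀ i m, g i m ≠ none → ∃ n, (q n).f i m ≠ none := by
    intro i m h
    by_contra hc
    push Not at hc
    exact h (hg0 i m hc)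
  refine ⟨⟨g, ?_, ?_⟩, fun n i m b hb => hg1 i m n b hb, hg0, ?_⟩
  · refine (countable_iUnion fun n => (q n).supp_ctb).mono ?_
    rintro i ⟨m, hm⟩
    obtain ⟨n, hn⟩ := hg2 i m hm
    exact mem_iUnion.2 ⟨n, m, hn⟩
  · intro i
    by_cases h : ∃ n, i ∈ (q n).supp
    · exact (hi i h).mono fun m hm => hg0 i m hm
    · push Not at h
      refine Set.infinite_univ.mono fun m _ => hg0 i m fun n => f_of_not_supp (h n) m
  · rintro i ⟨m, hm⟩
    obtain ⟨n, hn⟩ := hg2 i m hm
    exact ⟨n, m, hn⟩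

theorem exists_fresh (p : Silver K) (F : Finset (K × ℕ)) (i : K) :
    ∃ m, p.f i m = none ∧ (i, m) ∉ F := by
  classical
  obtain ⟨m, hm, hm'⟩ := ((p.free_infinite i).sdiff (F.image Prod.snd).finite_toSet).nonempty
  exact ⟨m, hm, fun h => hm' (Finset.mem_coe.2 (Finset.mem_image.2 ⟨(i, m), h, rfl⟩))⟩

/-- The states of the construction. -/
structure St {K : Type} (p₀ : Silver K) where
  p : Silver K
  F : Finset (K × ℕ)
  e : ℕ → ℕ → K
  hF : p.Free F
  hp : p ≤ p₀

/-- **The fusion theorem.** -/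
theorem fusion [Nonempty K] (Q : ℕ → Finset (K × ℕ) → Finset (K × ℕ) → Silver K → Prop)
    (mono : ∀ n F F' q q', q' ≤ q → q'.Free F' → Q n F F' q → Q n F F' q')
    (p : Silver K)
    (step : ∀ n F p', p' ≤ p → p'.Free F → ∃ q ≤ p', ∃ F', F ⊆ F' ∧ q.Free F' ∧ Q n F F' q) :
    ∃ w ≤ p, ∃ F F' : ℕ → Finset (K × ℕ), F 0 = ∅ ∧ (∀ n, F n ⊆ F' n) ∧
      (∀ n, F' n ⊆ F (n + 1)) ∧ (∀ n, w.Free (F' n)) ∧ (∀ n, Q n (F n) (F' n) w) ∧
      (∀ n, (F (n + 1)).card ≤ (F' n).card + (n + 1) ^ 2) ∧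
      ∀ i, (i ∈ w.supp ∨ ∃ n m, (i, m) ∈ F' n) →
        {m | ∃ n, (i, m) ∈ F (n + 1) ∧ (i, m) ∉ F' n}.Infinite := by
  classical
  have hstep : ∀ (n : ℕ) (s : St p), ∃ (s' : St p) (F' : Finset (K × ℕ)), s'.p ≤ s.p ∧
      s.F ⊆ F' ∧ F' ⊆ s'.F ∧ Q n s.F F' s'.p ∧ s'.F.card ≤ F'.card + (n + 1) ^ 2 ∧
      (∀ m, m ≠ n → s'.e m = s.e m) ∧ (∀ i, i ∈ s'.p.supp → i ∈ range (s'.e n)) ∧
      (∀ i m, (i, m) ∈ F' → i ∈ range (s'.e n)) ∧
      (∀ m l, m ≤ n → l ≤ n → ∃ x, (s'.e m l, x) ∈ s'.F ∧ (s'.e m l, x) ∉ F') := by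
    intro n s
    obtain ⟨q, hq, F', hF', hqF', hQ⟩ := step n s.F s.p s.hp s.hF
    have hA : (q.supp ∪ ((F'.image Prod.fst : Finset K) : Set K) ∪ {Classical.arbitrary K}).Countable :=
      (q.supp_ctb.union (F'.image Prod.fst).countable_toSet).union (Set.countable_singleton _)
    obtain ⟨g, hg⟩ := hA.exists_eq_range ⟨_, Or.inr rfl⟩
    let e' : ℕ → ℕ → K := Function.update s.e n g
    let C : Finset K := ((Finset.range (n + 1)) ×ˢ (Finset.range (n + 1))).image
      fun x => e' x.1 x.2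
    choose fr hfr hfr' using fun i => exists_fresh q F' i
    have he' : e' n = g := Function.update_self ..
    refine ⟨⟨q, F' ∪ C.image fun i => (i, fr i), e', ?_, hq.trans s.hp⟩, F', hq, hF', Finset.subset_union_left,
      hQ, ?_, ?_, ?_, ?_, ?_⟩
    · intro x hx
      rcases Finset.mem_union.1 hx with h | h
      · exact hqF' x h
      · obtain ⟨i, -, rfl⟩ := Finset.mem_image.1 h
        exact hfr i
    · refine (Finset.card_union_le _ _).trans (Nat.add_le_add_left ?_ _)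
      refine Finset.card_image_le.trans (Finset.card_image_le.trans ?_)
      rw [Finset.card_product, Finset.card_range, sq]
    · intro m hm
      exact Function.update_of_ne hm _ _
    · intro i hi
      show i ∈ range (e' n)
      rw [he', ← hg]
      exact Or.inl (Or.inl hi)
    · intro i m hi
      show i ∈ range (e' n)
      rw [he', ← hg]
      exact Or.inl (Or.inr (Finset.mem_coe.2 (Finset.mem_image.2 ⟨(i, m), hi, rfl⟩)))
    · intro m l hm hl
      refine ⟨fr (e' m l), Finset.mem_union_right _ (Finset.mem_image.2 ⟨e' m l, ?_, rfl⟩), hfr' _⟩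
      exact Finset.mem_image.2 ⟨(m, l), by simp; omega, rfl⟩
  choose nx Fx h1 h2 h3 h4 h5 h6 h7 h8 h9 using hstep
  let s : ℕ → St p := fun n => Nat.rec ⟨p, ∅, fun _ _ => Classical.arbitrary K,
    fun x hx => absurd hx (Finset.notMem_empty x), le_rfl⟩ (fun k t => nx k t) n
  have hs : ∀ n, s (n + 1) = nx n (s n) := fun n => rfl
  let F' : ℕ → Finset (K × ℕ) := fun n => Fx n (s n)
  have hle : ∀ n, (s (n + 1)).p ≤ (s n).p := fun n => h1 n (s n)
  have hanti : ∀ n m, n ≤ m → (s m).p ≤ (s n).p := fun n m h =>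
    antitone_nat_of_succ_le (f := fun n => (s n).p) hle h
  have hFF' : ∀ n, (s n).F ⊆ F' n := fun n => h2 n (s n)
  have hF'F : ∀ n, F' n ⊆ (s (n + 1)).F := fun n => h3 n (s n)
  have hFmono : ∀ n m, n ≤ m → (s n).F ⊆ (s m).F := fun n m h =>
    monotone_nat_of_le_succ (f := fun n => (s n).F) (fun n => (hFF' n).trans (hF'F n)) h
  -- all the places of `F n` stay free
  have hfree : ∀ n m, (s m).p.Free (s n).F := by
    intro n m
    rcases le_total n m with h | h
    · exact (s m).hF.subset (hFmono n m h)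
    · exact (s n).hF.mono (hanti m n h)
  have he : ∀ m n, m < n → (s n).e m = (s (m + 1)).e m := by
    intro m n hmn
    induction n, hmn using Nat.le_induction with
    | base => rfl
    | succ n hn ih =>
      rw [hs n, h6 n (s n) m (by omega)]
      exact ih
  have hinf : ∀ m l, {x | ∃ n, ((s (m + 1)).e m l, x) ∈ (s (n + 1)).F ∧
      ((s (m + 1)).e m l, x) ∉ F' n}.Infinite := by
    intro m l
    have h10 : ∀ k, ∃ x, ((s (m + 1)).e m l, x) ∈ (s (m + l + k + 1)).F ∧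
        ((s (m + 1)).e m l, x) ∉ F' (m + l + k) := by
      intro k
      have h11 := h9 (m + l + k) (s (m + l + k)) m l (by omega) (by omega)
      rw [← hs, he m (m + l + k + 1) (by omega)] at h11
      exact h11
    choose x hx hx' using h10
    refine Set.infinite_of_injective_forall_mem (f := x) ?_ fun k => ⟨m + l + k, hx k, hx' k⟩
    have key : ∀ k k', k < k' → x k ≠ x k' := by
      intro k k' hk heq
      apply hx' k'
      rw [← heq]
      exact hFF' _ (hFmono (m + l + k + 1) (m + l + k') (by omega) (hx k))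
    intro k k' hk
    rcases lt_trichotomy k k' with h | h | h
    · exact absurd hk (key k k' h)
    · exact h
    · exact absurd hk.symm (key k' k h)
  have hcol : ∀ i, ((∃ n, i ∈ (s n).p.supp) ∨ ∃ n m, (i, m) ∈ F' n) →
      {m | ∃ n, (i, m) ∈ (s (n + 1)).F ∧ (i, m) ∉ F' n}.Infinite := by
    intro i hi
    have h10 : ∃ n, i ∈ range ((s (n + 1)).e n) := by
      rcases hi with ⟨n, m, hm⟩ | ⟨n, m, hm⟩
      · refine ⟨n, h7 n (s n) i ⟨m, fun h => hm ?_⟩⟩
        exact none_of_le (hle n) h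
      · exact ⟨n, h8 n (s n) i m hm⟩
    obtain ⟨n, l, rfl⟩ := h10
    exact hinf n l
  obtain ⟨w, hw1, hw2, hw3⟩ := exists_limit (fun n => (s n).p) hle (by
    intro i hi
    refine (hcol i (Or.inl hi)).mono ?_
    rintro m ⟨n, hm, -⟩ k
    exact hfree (n + 1) k _ hm)
  have hwF : ∀ n, w.Free (s n).F := fun n x hx => hw2 x.1 x.2 fun k => hfree n k x hx
  refine ⟨w, hw1 0, fun n => (s n).F, F', rfl, hFF', hF'F,
    fun n => (hwF (n + 1)).subset (hF'F n), fun n => ?_, fun n => h5 n (s n), fun i hi => ?_⟩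
  · exact mono n _ _ _ w (hw1 (n + 1)) ((hwF (n + 1)).subset (hF'F n)) (h4 n (s n))
  · rcases hi with hi | hi
    · exact hcol i (Or.inl (hw3 i hi))
    · exact hcol i (Or.inr hi)

/-- Fusion with a parameter which is decreased in each step. -/
theorem fusion_sweep [Nonempty K] {α : ℕ → Type} [∀ n, Preorder (α n)] (a : ∀ n, α n)
    (Good : ∀ n, Finset (K × ℕ) → α n → Set (Silver K))
    (hG : ∀ n T b c p q, c ≤ b → q ≤ p → p ∈ Good n T b → q ∈ Good n T c)
    (p : Silver K)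
    (hs : ∀ n T, ∀ q ≤ p, ∀ b ≤ a n, ∃ r ≤ q, ∃ c ≤ b, r ∈ Good n T c) :
    ∃ w ≤ p, ∃ F : ℕ → Finset (K × ℕ), (∀ n, w.Free (F n)) ∧
      (∀ n, (F n).card ≤ ∑ k ∈ Finset.range n, (k + 1) ^ 2) ∧
      ∀ n, ∃ b ≤ a n, ∀ T, T ⊆ F n → w.ext (F n) T ∈ Good n T b := by
  obtain ⟨w, hw, F, F', h0, h1, h2, h3, h4, h5, -⟩ := fusion
    (fun n F F' q => F' = F ∧ ∃ b ≤ a n, ∀ T, T ⊆ F → q.ext F T ∈ Good n T b)
    (by
      rintro n F F' q q' hq hF ⟨rfl, b, hb, h⟩
      exact ⟨rfl, b, hb, fun T hT => hG _ _ _ _ _ _ le_rfl (ext_mono hq) (h T hT)⟩) p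
    (by
      intro n F p' hp' hF
      obtain ⟨q, hq, hqF, b, hb, h⟩ := sweep (Good n) (hG n) p' F hF (a n) fun T _ q hq b hb =>
        hs n T q (hq.trans ((ext_le hF).trans hp')) b hb
      exact ⟨q, hq, F, Finset.Subset.rfl, hqF, rfl, b, hb, h⟩)
  have h6 : ∀ n, F' n = F n := fun n => (h4 n).1
  refine ⟨w, hw, F, fun n => h6 n ▸ h3 n, fun n => ?_, fun n => (h4 n).2⟩
  induction n with
  | zero => rw [h0]; simp
  | succ n ih =>
    rw [Finset.sum_range_succ]
    refine (h5 n).trans (Nat.add_le_add_right ?_ _)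
    rw [h6 n]
    exact ih

end Pool.Agent.H87.Luz.Silver
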