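import Pool.Agent.H87.Luz.Defs
import Pool.Agent.H87.Luz.Fusion
import Pool.Agent.H87.Luz.Delta

/-!
# The product of Silver forcings: `ω₁` is preserved, cardinals, the cofinality of the meagre ideal
-/

set_option autoImplicit false

namespace Pool.Agent.H87.Luz

open Cardinal Set
open Pool.Agent.Helper292.ForceCH (fnot fand fall fimp fiff fex fground meets IsFun IsOnto Om
  OmegaOnePreserved mem_fex mem_fimp down_meets meets_of_dense fimp_of down_fnot down_fall
  down_fimp Down countable_Iio)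
open Pool.Agent.H87.CPos (Distinct)

namespace Silver

variable {K : Type}

theorem mem_meets_of_fused {w : Silver K} {F : Finset (K × ℕ)} {N : Set (Silver K)}
    (h : ∀ T, T ⊆ F → w.ext F T ∈ meets N) : w ∈ meets N := by
  refine meets_of_dense fun v hv => ?_
  obtain ⟨z, hz⟩ := v.exists_ext
  exact ⟨v.ext F (tr z F), ext_tr_le hz F, down_meets _ _ (h _ (tr_subset z F)) _ (ext_mono hv)⟩

theorem omegaOnePreserved (p : Silver K) : p ∈ OmegaOnePreserved (Silver K) := by
  rcases isEmpty_or_nonempty K with hK | hK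
  · -- the trivial case
    intro q _ hq
    obtain ⟨r, _, R, hR, hR'⟩ := mem_fex.1 hq q le_rfl
    have htriv : ∀ a b : Silver K, a ≤ b := fun a b i => (hK.false i).elim
    choose f hf using fun n : ℕ => mem_fex.1 (hR.1 n) r le_rfl
    have h1 : ∀ n, ∃ a, r ∈ meets (R n a) := fun n => by
      obtain ⟨_, a, ha⟩ := hf n
      exact ⟨a, down_meets _ _ ha _ (htriv _ _)⟩
    choose a ha using h1
    obtain ⟨c, hc⟩ : ∃ c : Om, ∀ n, a n < c := Pool.Agent.Helper292.ForceCH.exists_bound a
    obtain ⟨t, ht, n, hn⟩ := mem_fex.1 (hR' c) r le_rfl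
    obtain ⟨v, _, h5⟩ := mem_fimp.1 (hR.2 n (a n) c) r le_rfl
      ⟨ha n, down_meets _ _ hn _ (htriv _ _)⟩
    have h6 : a n = c := h5
    exact absurd (hc n) (by rw [h6]; exact lt_irrefl c)
  · intro q _ hq
    obtain ⟨r, _, R, hR, hR'⟩ := mem_fex.1 hq q le_rfl
    obtain ⟨w, hw, F, hF, -, h⟩ := fusion_sweep (α := fun _ => Unit) (fun _ => ())
      (fun n _ _ => {p : Silver K | ∃ a, p ∈ meets (R n a)})
      (fun n _ _ _ p q _ hqp ⟨a, ha⟩ => ⟨a, down_meets _ _ ha _ hqp⟩) r
      (fun n _ q hq b hb => by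
        obtain ⟨s, hs, a, ha⟩ := mem_fex.1 (hR.1 n) q hq
        exact ⟨s, hs, b, le_rfl, a, ha⟩)
    have h' : ∀ n T, ∃ a, T ⊆ F n → w.ext (F n) T ∈ meets (R n a) := by
      intro n T
      by_cases hT : T ⊆ F n
      · obtain ⟨_, _, h1⟩ := h n
        obtain ⟨a, ha⟩ := h1 T hT
        exact ⟨a, fun _ => ha⟩
      · exact ⟨Classical.arbitrary Om, fun h2 => absurd h2 hT⟩
    choose a ha using h'
    have hBc : (⋃ n, ⋃ T ∈ (F n).powerset, {a n T}).Countable :=
      countable_iUnion fun n => Finset.countable_toSet _ |>.biUnion fun T _ => countable_singleton _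
    obtain ⟨c, hc⟩ : ∃ c : Om, c ∉ ⋃ n, ⋃ T ∈ (F n).powerset, {a n T} := by
      by_contra hcon
      push Not at hcon
      have h1 : (Set.univ : Set Om).Countable := hBc.mono fun x _ => hcon x
      rw [Set.countable_univ_iff, ← mk_le_aleph0_iff] at h1
      have h4 : #Om = ℵ₁ := by simp
      rw [h4] at h1
      exact absurd h1 (not_le.2 aleph0_lt_aleph_one)
    obtain ⟨v, hv, n, hn⟩ := mem_fex.1 (hR' c) w hw
    obtain ⟨z, hz⟩ := v.exists_ext
    obtain ⟨u, hu, h5⟩ := mem_fimp.1 (hR.2 n (a n (tr z (F n))) c) (v.ext (F n) (tr z (F n)))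
      ((ext_tr_le hz _).trans (hv.trans hw))
      ⟨down_meets _ _ (ha n _ (tr_subset z _)) _ (ext_mono hv),
        down_meets _ _ hn _ (ext_tr_le hz _)⟩
    have h6 : a n (tr z (F n)) = c := h5
    refine hc (mem_iUnion.2 ⟨n, ?_⟩)
    simp only [Finset.mem_powerset, mem_iUnion, mem_singleton_iff, exists_prop]
    exact ⟨_, tr_subset z _, h6.symm⟩

/-- The Silver reals are pairwise distinct. -/
theorem distinct_silver (p : Silver K) :
    p ∈ Distinct fun (i : K) (n : ℕ) => {q : Silver K | q.f i n = some true} := by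
  classical
  intro i j hij q _ hq
  obtain ⟨n, hn⟩ := (q.free_infinite i).nonempty
  have hn : q.f i n = none := hn
  -- the value at `(j, n)`
  let c : Bool := (q.f j n).getD true
  let F : Finset (K × ℕ) := {(i, n), (j, n)}
  let z : K → ℕ → Bool := fun k _ => if k = i then !c else c
  have hle : q.ext F (tr z F) ≤ q := by
    intro k m b hb
    by_cases hF : (k, m) ∈ F
    · rw [ext_tr_f hF]
      rcases Finset.mem_insert.1 hF with h | h
      · rw [(Prod.mk.inj h).1, (Prod.mk.inj h).2, hn] at hb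
        exact absurd hb (by simp)
      · have h' := Prod.mk.inj (Finset.mem_singleton.1 h)
        rw [h'.1, h'.2] at hb
        simp only [z, c, h'.1, if_neg hij.symm, hb, Option.getD_some]
    · rw [ext_f, if_neg hF]
      exact hb
  have hi : (q.ext F (tr z F)).f i n = some (!c) := by
    rw [ext_tr_f (Finset.mem_insert_self _ _)]
    simp [z]
  have hj : (q.ext F (tr z F)).f j n = some c := by
    rw [ext_tr_f (Finset.mem_insert_of_mem (Finset.mem_singleton_self _))]
    simp [z, hij.symm]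
  set t := q.ext F (tr z F)
  have hmem : ∀ k, t.f k n = some true → t ∈ meets {q : Silver K | q.f k n = some true} :=
    fun k hk u hu => ⟨u, le_rfl, t, hk, hu⟩
  have hnot : ∀ k, t.f k n = some false → ∀ u ≤ t, u ∉ meets {q : Silver K | q.f k n = some true} := by
    intro k hk u hu hc
    obtain ⟨v, hv, s, hs, hvs⟩ := hc u le_rfl
    have h1 : v.f k n = some true := hvs k n true hs
    have h2 : v.f k n = some false := hv k n false (hu k n false hk)
    rw [h1] at h2
    exact absurd h2 (by simp)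
  cases hc : c with
  | true =>
    rw [hc] at hi hj
    obtain ⟨u, hu, h5⟩ := mem_fimp.1 (hq n).2 t hle (hmem j hj)
    exact hnot i hi u hu h5
  | false =>
    rw [hc] at hi hj
    obtain ⟨u, hu, h5⟩ := mem_fimp.1 (hq n).1 t hle (hmem i hi)
    exact hnot j hj u hu h5

/-- Cardinals above the continuum are preserved in a weak sense. -/
theorem not_inj {Y : Type} (hY : #Y < #K) (hK : 𝔠 < #K) (p : Silver K) :
    p ∈ fnot (InjHolds (Silver K) K Y) := by
  intro q _ hq
  obtain ⟨r, _, R, hR, hR'⟩ := mem_fex.1 hq q le_rfl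
  have h1 : ∀ x : K, ∃ (s : Silver K) (y : Y), s ≤ r ∧ s ∈ meets (R x y) := fun x => by
    obtain ⟨s, hs, y, hy⟩ := mem_fex.1 (hR.1 x) r le_rfl
    exact ⟨s, y, hs, hy⟩
  choose s y hs hy using h1
  obtain ⟨y₀, hy₀⟩ : ∃ y₀, 𝔠 < #(y ⁻¹' {y₀}) := by
    by_contra hcon
    push Not at hcon
    have h2 : #K ≤ #Y * 𝔠 := by
      have h3 : #K = #(⋃ y₀, y ⁻¹' {y₀}) := by
        rw [← mk_univ]
        congr 2
        ext x
        simp
      rw [h3]
      refine mk_iUnion_le_sum_mk.trans ((sum_le_sum _ _ hcon).trans ?_)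
      rw [sum_const']
    exact absurd h2 (not_le.2 (mul_lt_of_lt (aleph0_le_continuum.trans hK.le) hY hK))
  obtain ⟨i, j, hij, t, ht, ht'⟩ := compatible (fun x : y ⁻¹' {y₀} => s x.1) hy₀
  have hi : y i.1 = y₀ := i.2
  have hj : y j.1 = y₀ := j.2
  have hyi := hy i.1
  have hyj := hy j.1
  rw [hi] at hyi
  rw [hj] at hyj
  obtain ⟨u, _, h5⟩ := mem_fimp.1 (hR' i.1 j.1 y₀) t (ht.trans (hs _))
    ⟨down_meets _ _ hyi _ ht, down_meets _ _ hyj _ ht'⟩
  exact hij (Subtype.ext h5)

/-! ### The cofinality of the meagre ideal -/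

open Classical in
/-- the condition `q`, extended by `y` at the places `(i, 0)`, `i ∈ R` -/
noncomputable def fill (q : Silver K) (R : Set K) (hR : R.Countable) (y : K → Bool) : Silver K where
  f i m := if i ∈ R ∧ m = 0 then some ((q.f i 0).getD (y i)) else q.f i m
  supp_countable := by
    refine (q.supp_countable.union hR).mono ?_
    rintro i ⟨m, hm⟩
    by_cases h : i ∈ R ∧ m = 0
    · exact Or.inr h.1
    · rw [if_neg h] at hm
      exact Or.inl ⟨m, hm⟩
  free_infinite i := by
    refine ((q.free_infinite i).sdiff (Set.finite_singleton 0)).mono ?_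
    rintro m ⟨hm, hm'⟩
    show (if i ∈ R ∧ m = 0 then _ else _) = none
    rw [if_neg fun h => hm' h.2]
    exact hm

open Classical in
theorem fill_f (q : Silver K) (R : Set K) (hR : R.Countable) (y : K → Bool) (i : K) (m : ℕ) :
    (q.fill R hR y).f i m = if i ∈ R ∧ m = 0 then some ((q.f i 0).getD (y i)) else q.f i m := rfl

theorem fill_le (q : Silver K) (R : Set K) (hR : R.Countable) (y : K → Bool) :
    q.fill R hR y ≤ q := by
  intro i m b hb
  rw [fill_f]
  split_ifs with h
  · rw [h.2] at hb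
    rw [hb]
    rfl
  · exact hb

open Classical in
/-- the set coded by `x` -/
noncomputable def decode {n : ℕ} (x : ℕ → Bool) : Set (ℕ × Box n) :=
  if DenseCode {z : ℕ × Box n | x (Encodable.encode z) = true} then
    {z : ℕ × Box n | x (Encodable.encode z) = true} else Set.univ

theorem decode_dense {n : ℕ} (x : ℕ → Bool) : DenseCode (decode x : Set (ℕ × Box n)) := by
  unfold decode
  split_ifs with h
  · exact h
  · exact fun m I => ⟨I, fun i => ⟨le_rfl, le_rfl⟩, Set.mem_univ _⟩

theorem exists_decode {n : ℕ} {D : Set (ℕ × Box n)} (hD : DenseCode D) :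
    ∃ x, (decode x : Set (ℕ × Box n)) = D := by
  classical
  refine ⟨fun k => decide (∃ z ∈ D, Encodable.encode z = k), ?_⟩
  have h1 : {z : ℕ × Box n | decide (∃ w ∈ D, Encodable.encode w = Encodable.encode z) = true} = D := by
    ext z
    simp only [decide_eq_true_eq, Set.mem_ofPred_eq]
    constructor
    · rintro ⟨w, hw, h⟩
      exact Encodable.encode_injective h ▸ hw
    · exact fun h => ⟨z, h, rfl⟩
  unfold decode
  rw [h1, if_pos hD]

/-- Boxes ordered by inclusion of their sides. -/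
def BoxP (n : ℕ) : Type := Box n

instance (n : ℕ) : Preorder (BoxP n) where
  le J I := BoxLe (n := n) J I
  le_refl _ _ := ⟨le_rfl, le_rfl⟩
  le_trans _ _ _ h h' i := ⟨(h' i).1.trans (h i).1, (h i).2.trans (h' i).2⟩

instance : Nonempty {I : ℚ × ℚ // I.1 < I.2} := ⟨⟨(0, 1), one_pos⟩⟩

theorem cofHolds (hK : ℵ₁ ≤ #K) (n : ℕ) (p : Silver K) : p ∈ CofHolds (Silver K) n := by
  classical
  have hOm : #Om = ℵ₁ := by simp
  obtain ⟨h⟩ : Nonempty (Om × ℕ ↪ K) := by
    rw [← Cardinal.le_def, mk_prod, Cardinal.lift_id, Cardinal.lift_id, hOm, mk_nat,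
      mul_aleph0_eq aleph0_lt_aleph_one.le]
    exact hK
  have hne : Nonempty K := ⟨h (Classical.arbitrary Om, 0)⟩
  -- the name of the enumeration
  let D : Om → ℕ × Box n → Set (Silver K) := fun a z =>
    {p | (∀ k, p.f (h (a, k)) 0 ≠ none) ∧ z ∈ decode fun k => (p.f (h (a, k)) 0).getD false}
  have hDm : ∀ (a : Om) (z : ℕ × Box n) (q : Silver K), q ∈ D a z → q ∈ meets (D a z) :=
    fun a z q hq r hr => ⟨r, le_rfl, q, hq, hr⟩
  have hR : ∀ a : Om, (range fun k => h (a, k)).Countable := fun a => countable_range _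
  have hRf : ∀ (a : Om) (q : Silver K) (y : K → Bool) (k : ℕ),
      (q.fill (range fun k => h (a, k)) (hR a) y).f (h (a, k)) 0 =
        some ((q.f (h (a, k)) 0).getD (y (h (a, k)))) := by
    intro a q y k
    rw [fill_f, if_pos ⟨⟨k, rfl⟩, rfl⟩]
  refine mem_fex.2 fun p₁ _ => ⟨p₁, le_rfl, D, fun a m I => mem_fex.2 fun q _ => ?_, fun U => ?_⟩
  · let q' := q.fill (range fun k => h (a, k)) (hR a) fun _ => false
    obtain ⟨J, hJ, hJ'⟩ := decode_dense (n := n) (fun k => (q'.f (h (a, k)) 0).getD false) m I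
    refine ⟨q', fill_le _ _ _ _, J, hJ, hDm a _ _ ⟨fun k => ?_, hJ'⟩⟩
    rw [hRf]
    simp
  · refine mem_fimp.2 fun q _ hq => ?_
    obtain ⟨g, hg⟩ := exists_surjective_nat (ℕ × Box n)
    obtain ⟨w, hw, F, hF, -, h1⟩ := fusion_sweep (α := fun _ => BoxP n) (fun k => (g k).2)
      (fun k _ b => {p : Silver K | ∀ r ≤ p, r ≤ q → r ∈ meets (U ((g k).1, (b : Box n)))})
      (fun k _ b c p p' hcb hp hb r hr hrq => by
        refine meets_of_dense fun s hs => ?_
        exact mem_fimp.1 (hq.2 (g k).1 b c hcb) s (hs.trans hrq)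
          (down_meets _ _ (hb r (hr.trans hp) hrq) _ hs)) q
      (fun k _ r hr b _ => by
        obtain ⟨s, hs, J, hJ, hJ'⟩ := mem_fex.1 (hq.1 (g k).1 b) r hr
        exact ⟨s, hs, J, hJ, fun t ht _ => down_meets _ _ hJ' _ ht⟩)
    choose b hb hb' using h1
    have h2 : ∀ k, w ∈ meets (U ((g k).1, (b k : Box n))) := fun k =>
      mem_meets_of_fused (F := F k) fun T hT =>
        hb' k T hT _ le_rfl ((ext_le (hF k)).trans hw)
    let D₀ : Set (ℕ × Box n) := {z | ∃ k, z = ((g k).1, (b k : Box n))}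
    have hD₀ : DenseCode D₀ := by
      intro m I
      obtain ⟨k, hk⟩ := hg (m, I)
      refine ⟨b k, ?_, k, ?_⟩
      · have h3 := hb k
        rw [hk] at h3
        exact h3
      · rw [hk]
        rfl
    obtain ⟨x, hx⟩ := exists_decode hD₀
    -- an index outside the support of `w`
    obtain ⟨a, ha⟩ : ∃ a : Om, ∀ k, h (a, k) ∉ w.supp := by
      by_contra hcon
      push Not at hcon
      have h3 : (Set.univ : Set Om) ⊆ Prod.fst '' (h ⁻¹' w.supp) := by
        intro a _
        obtain ⟨k, hk⟩ := hcon a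
        exact ⟨(a, k), hk, rfl⟩
      have h4 : (Set.univ : Set Om).Countable :=
        ((w.supp_ctb.preimage h.injective).image _).mono h3
      rw [Set.countable_univ_iff, ← mk_le_aleph0_iff, hOm] at h4
      exact absurd h4 (not_le.2 aleph0_lt_aleph_one)
    let y : K → Bool := fun i => if hi : ∃ k, h (a, k) = i then x hi.choose else false
    have hy : ∀ k, y (h (a, k)) = x k := by
      intro k
      have hi : ∃ k', h (a, k') = h (a, k) := ⟨k, rfl⟩
      have h3 : hi.choose = k := (Prod.mk.inj (h.injective hi.choose_spec)).2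
      simp only [y, dif_pos hi, h3]
    let v := w.fill (range fun k => h (a, k)) (hR a) y
    have hv : ∀ k, v.f (h (a, k)) 0 = some (x k) := by
      intro k
      rw [hRf, f_of_not_supp (ha k), hy]
      rfl
    have hvw : v ≤ w := fill_le _ _ _ _
    refine ⟨v, hvw.trans hw, mem_fex.2 fun v' hv' => ⟨v', le_rfl, a, fun z => ?_⟩⟩
    refine mem_fimp.2 fun t ht hmt => ?_
    obtain ⟨t', ht', s, hs, hts⟩ := hmt t le_rfl
    refine ⟨t', ht', ?_⟩
    have h3 : ∀ k, s.f (h (a, k)) 0 = some (x k) := by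
      intro k
      obtain ⟨c, hc⟩ := Option.ne_none_iff_exists'.1 (hs.1 k)
      have h4 := hts _ _ _ hc
      have h5 := (ht'.trans (ht.trans hv')) _ _ _ (hv k)
      rw [h4] at h5
      rw [hc, h5]
    have h4 : z ∈ D₀ := by
      rw [← hx]
      have h5 := hs.2
      simp only [h3, Option.getD_some] at h5
      exact h5
    obtain ⟨k, rfl⟩ := h4
    exact down_meets _ _ (h2 k) _ (ht'.trans (ht.trans (hv'.trans hvw)))

end Silver

end Pool.Agent.H87.Luz
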