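import Pool.Agent.H87.Luz.Facts
import Pool.Agent.H87.Luz.Block

/-!
# Names of reals, and gluing of conditions
-/

set_option autoImplicit false

namespace Pool.Agent.H87.Luz.Silver

open Cardinal Set
open Pool.Agent.Helper292.ForceCH (fnot fand fall fimp fiff fex fground meets IsFun IsOnto Om
  mem_fex mem_fimp down_meets meets_of_dense fimp_of down_fnot)
open Pool.Agent.H87.CPos (Distinct)

variable {K : Type}

theorem eq_of_f {p q : Silver K} (h : ∀ i m, p.f i m = q.f i m) : p = q := by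
  cases p
  cases q
  congr 1
  funext i m
  exact h i m

/-! ### Gluing -/

open Classical in
/-- The columns `e i`, `i ∉ R`, of `p` are replaced by the columns of `s`. -/
noncomputable def glue (p : Silver K) (e : ℕ → K) (R : Set ℕ) (s : Silver ℕ) : Silver K where
  f k m := if h : ∃ i, i ∉ R ∧ e i = k then s.f h.choose m else p.f k m
  supp_countable := by
    refine (p.supp_countable.union (countable_range e)).mono ?_
    rintro k ⟨m, hm⟩
    by_cases h : ∃ i, i ∉ R ∧ e i = k
    · obtain ⟨i, -, rfl⟩ := h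
      exact Or.inr ⟨i, rfl⟩
    · rw [dif_neg h] at hm
      exact Or.inl ⟨m, hm⟩
  free_infinite k := by
    by_cases h : ∃ i, i ∉ R ∧ e i = k
    · refine (s.free_infinite h.choose).mono fun m hm => ?_
      show (if h : ∃ i, i ∉ R ∧ e i = k then s.f h.choose m else p.f k m) = none
      rw [dif_pos h]
      exact hm
    · refine (p.free_infinite k).mono fun m hm => ?_
      show (if h : ∃ i, i ∉ R ∧ e i = k then s.f h.choose m else p.f k m) = none
      rw [dif_neg h]
      exact hm

open Classical in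
theorem glue_in (p : Silver K) {e : ℕ → K} (he : Function.Injective e) {R : Set ℕ} (s : Silver ℕ)
    {i : ℕ} (hi : i ∉ R) (m : ℕ) : (p.glue e R s).f (e i) m = s.f i m := by
  have h : ∃ i', i' ∉ R ∧ e i' = e i := ⟨i, hi, rfl⟩
  show (if h : ∃ i', i' ∉ R ∧ e i' = e i then s.f h.choose m else p.f (e i) m) = _
  rw [dif_pos h, he h.choose_spec.2]

open Classical in
theorem glue_out (p : Silver K) (e : ℕ → K) {R : Set ℕ} (s : Silver ℕ) {k : K}
    (h : ∀ i, i ∉ R → e i ≠ k) (m : ℕ) : (p.glue e R s).f k m = p.f k m := by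
  have h' : ¬ ∃ i, i ∉ R ∧ e i = k := by
    rintro ⟨i, hi, hk⟩
    exact h i hi hk
  show (if h : ∃ i, i ∉ R ∧ e i = k then s.f h.choose m else p.f k m) = _
  rw [dif_neg h']

/-- the columns `e i` -/
def pull (p : Silver K) (e : ℕ → K) : Silver ℕ where
  f i m := p.f (e i) m
  supp_countable := Set.to_countable _
  free_infinite i := p.free_infinite (e i)

/-! ### Names of reals -/

/-- The condition `w` decides `n ∈ N` after finitely many places. -/
def Fused (N : ℕ → Set (Silver K)) (w : Silver K) (F : ℕ → Finset (K × ℕ)) : Prop :=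
  ∀ n T, T ⊆ F n → w.ext (F n) T ∈ meets (N n) ∨ w.ext (F n) T ∈ fnot (meets (N n))

theorem dec_dense (N : Set (Silver K)) (q : Silver K) :
    ∃ r ≤ q, r ∈ meets N ∨ r ∈ fnot (meets N) := by
  by_cases h : ∃ r ≤ q, r ∈ meets N
  · obtain ⟨r, hr, h'⟩ := h
    exact ⟨r, hr, Or.inl h'⟩
  · exact ⟨q, le_rfl, Or.inr fun r hr h' => h ⟨r, hr, h'⟩⟩

theorem dec_down {N : Set (Silver K)} {q r : Silver K} (h : q ∈ meets N ∨ q ∈ fnot (meets N))
    (hr : r ≤ q) : r ∈ meets N ∨ r ∈ fnot (meets N) :=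
  h.imp (fun h => down_meets _ _ h _ hr) fun h => down_fnot _ _ h _ hr

theorem exists_fused [Nonempty K] (N : ℕ → Set (Silver K)) (p : Silver K) :
    ∃ w ≤ p, ∃ F : ℕ → Finset (K × ℕ), Fused N w F := by
  obtain ⟨w, hw, F, -, -, h⟩ := fusion_sweep (α := fun _ => Unit) (fun _ => ())
    (fun n _ _ => {p : Silver K | p ∈ meets (N n) ∨ p ∈ fnot (meets (N n))})
    (fun n _ _ _ p q _ hqp h => dec_down h hqp) p
    (fun n _ q _ b _ => by
      obtain ⟨r, hr, h⟩ := dec_dense (N n) q
      exact ⟨r, hr, b, le_rfl, h⟩)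
  refine ⟨w, hw, F, fun n T hT => ?_⟩
  obtain ⟨_, _, h1⟩ := h n
  exact h1 T hT

/-- The interpretation of the name `N` by a total extension. -/
def real (N : ℕ → Set (Silver K)) (w : Silver K) (F : ℕ → Finset (K × ℕ)) (z : K → ℕ → Bool) :
    Set ℕ := {n | w.ext (F n) (tr z (F n)) ∈ meets (N n)}

theorem real_pos {N : ℕ → Set (Silver K)} {w v : Silver K} {F : ℕ → Finset (K × ℕ)}
    (hv : v ≤ w) {z : K → ℕ → Bool} (hz : v.Ext z) {n : ℕ} (hn : n ∈ real N w F z)
    {G : Finset (K × ℕ)} (hG : F n ⊆ G) : v.ext G (tr z G) ∈ meets (N n) :=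
  down_meets _ _ hn _ (ext_tr_le_tr hv hG hz)

theorem real_neg {N : ℕ → Set (Silver K)} {w v : Silver K} {F : ℕ → Finset (K × ℕ)}
    (hF : Fused N w F) (hv : v ≤ w) {z : K → ℕ → Bool} (hz : v.Ext z) {n : ℕ}
    (hn : n ∉ real N w F z) {G : Finset (K × ℕ)} (hG : F n ⊆ G) :
    v.ext G (tr z G) ∈ fnot (meets (N n)) :=
  down_fnot _ _ ((hF n _ (tr_subset z (F n))).resolve_left hn) _ (ext_tr_le_tr hv hG hz)

/-- If the interpretations of two names agree then the two names are forced to be equal. -/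
theorem fiff_of_real {N N' : ℕ → Set (Silver K)} {w w' : Silver K} {F F' : ℕ → Finset (K × ℕ)}
    (hF : Fused N w F) (hF' : Fused N' w' F') {u : Silver K} (hu : u ≤ w) (hu' : u ≤ w') (n : ℕ)
    (h : ∀ z, u.Ext z → (n ∈ real N w F z ↔ n ∈ real N' w' F' z)) :
    u ∈ fiff (meets (N n)) (meets (N' n)) := by
  classical
  constructor
  · refine mem_fimp.2 fun v hv hv' => ?_
    obtain ⟨z, hz⟩ := v.exists_ext
    refine ⟨v.ext (F n ∪ F' n) (tr z (F n ∪ F' n)), ext_tr_le hz _, ?_⟩
    refine real_pos (hv.trans hu') hz ?_ Finset.subset_union_right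
    rw [← h z (hz.mono hv)]
    by_contra hn
    exact real_neg hF (hv.trans hu) hz hn (Finset.subset_union_left (s₂ := F' n)) _ le_rfl
      (down_meets _ _ hv' _ (ext_tr_le hz _))
  · refine mem_fimp.2 fun v hv hv' => ?_
    obtain ⟨z, hz⟩ := v.exists_ext
    refine ⟨v.ext (F n ∪ F' n) (tr z (F n ∪ F' n)), ext_tr_le hz _, ?_⟩
    refine real_pos (hv.trans hu) hz ?_ Finset.subset_union_left
    rw [h z (hz.mono hv)]
    by_contra hn
    exact real_neg hF' (hv.trans hu') hz hn (Finset.subset_union_right (s₁ := F n)) _ le_rfl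
      (down_meets _ _ hv' _ (ext_tr_le hz _))

/-! ### Enumerations of countable sets of columns -/

theorem exists_inj_enum [Infinite K] {A : Set K} (hA : A.Countable) :
    ∃ e : ℕ → K, Function.Injective e ∧ A ⊆ range e := by
  let f := Infinite.natEmbedding K
  let C : Set K := A ∪ range f
  have hC : Countable C := (hA.union (countable_range f)).to_subtype
  have hCi : Infinite C := by
    have h : C.Infinite := (Set.infinite_range_of_injective f.injective).mono subset_union_right
    exact h.to_subtype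
  obtain ⟨g⟩ := nonempty_equiv_of_countable (α := ℕ) (β := C)
  refine ⟨fun n => (g n).1, fun a b h => g.injective (Subtype.ext h), fun x hx => ?_⟩
  refine ⟨g.symm ⟨x, Or.inl hx⟩, ?_⟩
  simp

/-- the map on places -/
def lift (e : ℕ → K) (x : ℕ × ℕ) : K × ℕ := (e x.1, x.2)

theorem lift_injective {e : ℕ → K} (he : Function.Injective e) : Function.Injective (lift e) :=
  fun _ _ h => Prod.ext (he (Prod.mk.inj h).1) (Prod.mk.inj h).2

open Classical in
theorem exists_preimage {e : ℕ → K} {F : Finset (K × ℕ)} (h : ∀ x ∈ F, x.1 ∈ range e) :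
    ∃ G : Finset (ℕ × ℕ), G.image (lift e) = F := by
  choose! g hg using h
  refine ⟨F.image fun x => (g x, x.2), ?_⟩
  rw [Finset.image_image]
  refine (Finset.image_congr fun x hx => ?_).trans Finset.image_id
  exact Prod.ext (hg x hx) rfl

open Classical in
theorem tr_image (e : ℕ → K) (z : K → ℕ → Bool)
    (G : Finset (ℕ × ℕ)) :
    tr z (G.image (lift e)) = (tr (fun i m => z (e i) m) G).image (lift e) := by
  ext x
  simp only [mem_tr, Finset.mem_image]
  constructor
  · rintro ⟨⟨y, hy, rfl⟩, h⟩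
    exact ⟨y, ⟨hy, h⟩, rfl⟩
  · rintro ⟨y, ⟨hy, h⟩, rfl⟩
    exact ⟨⟨y, hy, rfl⟩, h⟩

end Pool.Agent.H87.Luz.Silver
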