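import Pool.Agent.H87.Luz.SMZ

/-!
# The index set, and the forcing theorem for the product of Silver forcings
-/

set_option autoImplicit false

namespace Pool.Agent.H87.Luz

open Cardinal Set
open Pool.Agent.Helper292.ForceCH (fnot fand fall fimp fiff fex fground meets IsFun IsOnto Om
  OmegaOnePreserved mem_fex mem_fimp down_meets meets_of_dense fimp_of down_fnot countable_Iio
  exists_bound)
open Pool.Agent.H87.CPos (Distinct)

/-- the sizes of the steps -/
noncomputable def size (a : Om) : Cardinal.{0} := ℶ_ (2 + Ordinal.typein (α := Om) (· < ·) a)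

theorem size_lt {a b : Om} (h : a < b) : size a < size b := by
  unfold size
  rw [beth_lt_beth]
  exact (add_lt_add_iff_left 2).2 ((Ordinal.typein_lt_typein (α := Om) (· < ·)).2 h)

theorem continuum_lt_size (a : Om) : 𝔠 < size a := by
  have h1 : (𝔠 : Cardinal.{0}) < ℶ_ 2 := by
    rw [← beth_one, beth_lt_beth]
    exact one_lt_two
  exact h1.trans_le (beth_le_beth.2 le_self_add)

/-- **The index set**: a set of singular cardinality of cofinality `ω₁` above the continuum. -/
theorem exists_index : ∃ (K : Type) (k : Om → Set K) (a₀ : Om), Filtration k a₀ ∧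
    (∀ a, #(k a) < #K) ∧ 𝔠 < #(k a₀) := by
  let K : Type := Σ a : Om, (size a).out
  let k : Om → Set K := fun b => {x | x.1 ≤ b}
  let a₀ : Om := Classical.arbitrary Om
  have h1 : ∀ a, size a ≤ #(k a) := by
    intro a
    have h2 : #((size a).out) ≤ #(k a) := mk_le_of_injective
      (f := fun x => (⟨⟨a, x⟩, le_refl a⟩ : k a)) fun x y h => by
        have h3 : (⟨a, x⟩ : K) = ⟨a, y⟩ := congrArg Subtype.val h
        simpa using h3
    rwa [mk_out] at h2
  have h2 : ∀ b, #(k b) ≤ size b := by
    intro b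
    have hcnt : {a : Om | a ≤ b}.Countable := by
      have h2 : {a : Om | a ≤ b} = insert b {a : Om | a < b} := by
        ext a
        simp [le_iff_eq_or_lt]
      rw [h2]
      exact Set.Countable.insert _ (Set.countable_coe_iff.1 (countable_Iio b))
    have h3 : k b = ⋃ a : {a : Om // a ≤ b}, range fun x : (size a.1).out => (⟨a.1, x⟩ : K) := by
      ext ⟨a, x⟩
      constructor
      · intro h
        exact mem_iUnion.2 ⟨⟨a, h⟩, x, rfl⟩
      · intro h
        obtain ⟨a', y, hy⟩ := mem_iUnion.1 h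
        have h4 : a'.1 = a := congrArg Sigma.fst hy
        show a ≤ b
        rw [← h4]
        exact a'.2
    rw [h3]
    refine mk_iUnion_le_sum_mk.trans ?_
    refine (sum_le_sum _ (fun _ => size b) fun a => ?_).trans ?_
    · refine mk_range_le.trans ?_
      rw [mk_out]
      rcases a.2.eq_or_lt with h | h
      · rw [h]
      · exact (size_lt h).le
    · rw [sum_const']
      have hc : #{a : Om // a ≤ b} ≤ ℵ₀ := le_aleph0_iff_set_countable.2 hcnt
      exact (mul_le_mul' hc le_rfl).trans
        (aleph0_mul_eq (aleph0_le_continuum.trans (continuum_lt_size b).le)).le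
  have h3 : ∀ a, #(k a) < #K := by
    intro a
    obtain ⟨b, hb⟩ := exists_bound fun _ => a
    refine (h2 a).trans_lt ((size_lt (hb 0)).trans_le ?_)
    exact (h1 b).trans (mk_set_le _)
  have h4 : 𝔠 < #(k a₀) := (continuum_lt_size a₀).trans_le (h1 a₀)
  refine ⟨K, k, a₀, ⟨fun a b hab x hx => le_trans hx hab, fun x => ⟨x.1, (le_refl x.1 : x.1 ≤ x.1)⟩, ?_⟩, h3, h4⟩
  have h5 : #Om ≤ #(k a₀) := by
    have h6 : #Om = ℵ₁ := by simp
    rw [h6]
    exact aleph_one_le_continuum.trans h4.le
  obtain ⟨f⟩ := (Cardinal.le_def _ _).1 h5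
  exact ⟨fun a => (f a).1, fun a b h => f.injective (Subtype.ext h), fun a => (f a).2⟩

/-- **The product of Silver forcings forces the principle.** -/
theorem exists_forcing : ∃ (P : Type) (_ : Preorder P), Nonempty P ∧
    ∀ p : P, p ∈ OmegaOnePreserved P ∧ p ∈ SingHolds P := by
  obtain ⟨K, k, a₀, h1, h2, h3⟩ := exists_index
  have hK : 𝔠 < #K := h3.trans (h2 a₀)
  have hinf : Infinite K := infinite_iff.2 (aleph0_le_continuum.trans hK.le)
  refine ⟨Silver K, inferInstance, inferInstance, fun p => ⟨Silver.omegaOnePreserved p, ?_⟩⟩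
  refine mem_fex.2 fun q₁ _ => ⟨q₁, le_rfl, K, mem_fex.2 fun q₂ _ => ⟨q₂, le_rfl, k,
    mem_fex.2 fun q₃ _ => ⟨q₃, le_rfl, a₀, h1, fun a => Silver.not_inj (h2 a) hK q₃,
      mem_fex.2 fun q₄ _ => ⟨q₄, le_rfl, _, Silver.distinct_silver q₄⟩,
      fun n => Silver.cofHolds (aleph_one_le_continuum.trans hK.le) n q₃,
      fun X => Silver.notSMZ h3 X q₃⟩⟩⟩

end Pool.Agent.H87.Luz
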