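import Pool.Agent.H87.Luz.Reals

/-!
# The combinatorial principle gives a Luzin set and no Luzin subgroup
-/

set_option autoImplicit false

namespace Pool.Agent.H87.Luz

open Cardinal Set
open Pool.Agent.Helper292.ForceCH (Om countable_Iio)

/-- `A` is a `κ`-Luzin set for the ideal of the meagre subsets of `ℝ ^ n`. -/
def IsLuzin {n : ℕ} (κ : Cardinal.{0}) (A : Set (Fin n → ℝ)) : Prop :=
  κ ≤ #A ∧ ∀ B : Set (Fin n → ℝ), IsMeagre B → #↥(A ∩ B) < κ

/-! ### Boxes -/

def box {n : ℕ} (I : Box n) : Set (Fin n → ℝ) :=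
  {x | ∀ i, ((I i).1.1 : ℝ) < x i ∧ x i < (I i).1.2}

theorem isOpen_box {n : ℕ} (I : Box n) : IsOpen (box I) := by
  have h : box I = ⋂ i, {x : Fin n → ℝ | ((I i).1.1 : ℝ) < x i ∧ x i < (I i).1.2} := by
    ext x
    simp [box]
  rw [h]
  refine isOpen_iInter_of_finite fun i => ?_
  exact (isOpen_lt continuous_const (continuous_apply i)).inter
    (isOpen_lt (continuous_apply i) continuous_const)

theorem box_mono {n : ℕ} {I J : Box n} (h : BoxLe J I) : box J ⊆ box I := by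
  intro x hx i
  have h1 := h i
  have h2 := hx i
  have h3 : ((I i).1.1 : ℝ) ≤ (J i).1.1 := by exact_mod_cast h1.1
  have h4 : ((J i).1.2 : ℝ) ≤ (I i).1.2 := by exact_mod_cast h1.2
  exact ⟨by linarith [h2.1], by linarith [h2.2]⟩

theorem box_nonempty {n : ℕ} (I : Box n) : (box I).Nonempty := by
  refine ⟨fun i => (((I i).1.1 : ℝ) + (I i).1.2) / 2, fun i => ?_⟩
  have h : ((I i).1.1 : ℝ) < (I i).1.2 := by exact_mod_cast (I i).2
  constructor <;> linarith

theorem exists_box {n : ℕ} (I : Box n) {O : Set (Fin n → ℝ)} (hO : IsOpen O) {x : Fin n → ℝ}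
    (hx : x ∈ O) (hxI : x ∈ box I) : ∃ J, BoxLe J I ∧ x ∈ box J ∧ box J ⊆ O := by
  obtain ⟨ε, hε, hb⟩ := Metric.isOpen_iff.1 hO x hx
  have h1 : ∀ i, ∃ a : ℚ, max ((I i).1.1 : ℝ) (x i - ε) < a ∧ (a : ℝ) < x i := fun i =>
    exists_rat_btwn (max_lt (hxI i).1 (by linarith))
  have h2 : ∀ i, ∃ b : ℚ, x i < b ∧ (b : ℝ) < min ((I i).1.2 : ℝ) (x i + ε) := fun i =>
    exists_rat_btwn (lt_min (hxI i).2 (by linarith))
  choose a ha ha' using h1
  choose b hb1 hb2 using h2
  refine ⟨fun i => ⟨(a i, b i), by exact_mod_cast (ha' i).trans (hb1 i)⟩, fun i => ⟨?_, ?_⟩,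
    fun i => ⟨ha' i, hb1 i⟩, fun y hy => hb ?_⟩
  · exact_mod_cast ((le_max_left _ _).trans_lt (ha i)).le
  · exact_mod_cast ((hb2 i).trans_le (min_le_left _ _)).le
  · rw [Metric.mem_ball, dist_pi_lt_iff hε]
    intro i
    have h3 := hy i
    have h4 := (le_max_right _ _).trans_lt (ha i)
    have h5 := (hb2 i).trans_le (min_le_right _ _)
    rw [Real.dist_eq, abs_lt]
    simp only at h3
    constructor <;> linarith [h3.1, h3.2]

/-- the open set coded by the `m`-th section of `U` -/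
def opn {n : ℕ} (U : Set (ℕ × Box n)) (m : ℕ) : Set (Fin n → ℝ) :=
  ⋃ I : {I : Box n // (m, I) ∈ U}, box I.1

theorem opn_residual {n : ℕ} {U : Set (ℕ × Box n)} (hU : DenseCode U) (m : ℕ) :
    opn U m ∈ residual (Fin n → ℝ) := by
  refine residual_of_dense_open (isOpen_iUnion fun I => isOpen_box _) ?_
  rw [dense_iff_inter_open]
  rintro O hO ⟨x, hx⟩
  obtain ⟨I, -, -, hI⟩ := exists_box (fun i => ⟨(⌊x i⌋ - 1, ⌊x i⌋ + 1), by linarith⟩) hO hx
    (fun i => by
      constructor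
      · push_cast
        linarith [Int.floor_le (x i)]
      · push_cast
        linarith [Int.lt_floor_add_one (x i)])
  obtain ⟨J, hJ, hJU⟩ := hU m I
  obtain ⟨y, hy⟩ := box_nonempty J
  exact ⟨y, hI (box_mono hJ hy), mem_iUnion.2 ⟨⟨J, hJU⟩, hy⟩⟩

theorem exists_code {n : ℕ} {B : Set (Fin n → ℝ)} (hB : IsMeagre B) :
    ∃ U : Set (ℕ × Box n), DenseCode U ∧ OpenCode U ∧ Disjoint (⋂ m, opn U m) B := by
  obtain ⟨S, hS, hSc, hBS⟩ := isMeagre_iff_countable_union_isNowhereDense.1 hB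
  obtain ⟨t, ht⟩ : ∃ t : ℕ → Set (Fin n → ℝ), (∀ m, IsNowhereDense (t m)) ∧ S ⊆ range t := by
    rcases S.eq_empty_or_nonempty with h | h
    · exact ⟨fun _ => ∅, fun _ => isNowhereDense_empty, h ▸ empty_subset _⟩
    · obtain ⟨t, ht⟩ := hSc.exists_eq_range h
      exact ⟨t, fun m => hS _ (ht ▸ mem_range_self m), ht.le⟩
  refine ⟨{z | Disjoint (box z.2) (closure (t z.1))}, ?_, ?_, ?_⟩
  · intro m I
    have h1 : ¬ box I ⊆ closure (t m) := by
      intro h
      have h2 : box I ⊆ interior (closure (t m)) := interior_maximal h (isOpen_box I)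
      rw [(ht.1 m : interior (closure (t m)) = ∅)] at h2
      exact (box_nonempty I).ne_empty (subset_empty_iff.1 h2)
    obtain ⟨x, hx, hx'⟩ := not_subset.1 h1
    obtain ⟨J, hJ, -, hJ'⟩ := exists_box I isClosed_closure.isOpen_compl hx' hx
    exact ⟨J, hJ, disjoint_left.2 fun y hy => hJ' hy⟩
  · intro m I J hJ hI
    exact Disjoint.mono_left (box_mono hJ) hI
  · rw [disjoint_left]
    intro x hx hxB
    obtain ⟨s, hs, hxs⟩ := hBS hxB
    obtain ⟨m, rfl⟩ := ht.2 hs
    obtain ⟨I, hI⟩ := mem_iUnion.1 (mem_iInter.1 hx m)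
    exact disjoint_left.1 I.2 hI (subset_closure hxs)

theorem mk_residual {n : ℕ} (hn : 1 ≤ n) {S : Set (Fin n → ℝ)} (hS : MeasurableSet S)
    (hr : S ∈ residual (Fin n → ℝ)) : #S = 𝔠 := by
  have hne : Nonempty (Fin n) := ⟨⟨0, hn⟩⟩
  have hnc : ¬ Countable S := by
    intro hc
    have h1 : IsMeagre S := by
      have h2 : S = ⋃ x : S, {x.1} := by
        ext y
        simp
      rw [h2]
      refine isMeagre_iUnion fun x => IsNowhereDense.isMeagre ?_
      rw [isClosed_singleton.isNowhereDense_iff]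
      have := Module.punctured_nhds_neBot ℝ (Fin n → ℝ) x.1
      exact interior_singleton _
    have h3 : IsMeagre (univ : Set (Fin n → ℝ)) := by
      rw [← union_compl_self S]
      refine h1.union ?_
      show Sᶜᶜ ∈ _
      rwa [compl_compl]
    exact not_isMeagre_of_isOpen isOpen_univ univ_nonempty h3
  have : StandardBorelSpace S := hS.standardBorel
  rw [mk_congr (PolishSpace.measurableEquivNatBoolOfNotCountable hnc).toEquiv]
  simp

/-! ### The Luzin set -/

theorem lt_of_filtration {K : Type} {k : Om → Set K} {a₀ : Om} (hk : Filtration k a₀)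
    (hlt : ∀ a, ¬ ∃ F : K → k a, Function.Injective F) :
    (∀ a, #(k a) < #K) ∧ ℵ₁ ≤ #(k a₀) := by
  refine ⟨fun a => ?_, ?_⟩
  · by_contra h
    obtain ⟨f⟩ := Cardinal.le_def _ _ |>.1 (not_lt.1 h)
    exact hlt a ⟨f, f.injective⟩
  · obtain ⟨g, hg, hg'⟩ := hk.2.2
    have h1 : #Om ≤ #(k a₀) := mk_le_of_injective (f := fun a => (⟨g a, hg' a⟩ : k a₀))
      fun a b h => hg (congrArg Subtype.val h)
    have h2 : #Om = ℵ₁ := by simp
    rwa [h2] at h1

theorem exists_luzin {n : ℕ} (hn : 1 ≤ n) {K : Type} {k : Om → Set K} {a₀ : Om}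
    (hk : Filtration k a₀) (hlt : ∀ a, ¬ ∃ F : K → k a, Function.Injective F)
    (hY : ∃ Y : K → Set ℕ, Function.Injective Y) (hC : CofAx n) :
    ∃ A : Set (Fin n → ℝ), IsLuzin (#K) A := by
  obtain ⟨hlt', h1⟩ := lt_of_filtration hk hlt
  obtain ⟨Y, hY⟩ := hY
  have hK : #K ≤ 𝔠 := by
    refine (mk_le_of_injective hY).trans ?_
    simp
  have hK1 : ℵ₁ < #K := h1.trans_lt (hlt' a₀)
  have hK0 : ℵ₀ < #K := aleph0_lt_aleph_one.trans hK1
  obtain ⟨D, hD, hD'⟩ := hC
  -- the residual sets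
  let H : Om → Set (Fin n → ℝ) := fun a => ⋂ b : {b : Om // b ≤ a}, ⋂ m, opn (D b.1) m
  have hcnt : ∀ a : Om, Countable {b : Om // b ≤ a} := by
    intro a
    have h2 : {b : Om | b ≤ a} = insert a {b : Om | b < a} := by
      ext b
      simp [le_iff_eq_or_lt]
    have h3 : {b : Om | b ≤ a}.Countable := by
      rw [h2]
      exact Set.Countable.insert _ (Set.countable_coe_iff.1 (countable_Iio a))
    exact h3
  have hHr : ∀ a, H a ∈ residual (Fin n → ℝ) := fun a => by
    have := hcnt a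
    exact countable_iInter_mem.2 fun b => countable_iInter_mem.2 fun m => opn_residual (hD _) m
  have hHm : ∀ a, MeasurableSet (H a) := fun a => by
    have := hcnt a
    exact MeasurableSet.iInter fun b => MeasurableSet.iInter fun m =>
      (isOpen_iUnion fun I => isOpen_box _).measurableSet
  have h2 : ∀ a, ∃ φ : k a → H a, Function.Injective φ := by
    intro a
    have h3 : #(k a) ≤ #(H a) := by
      rw [mk_residual hn (hHm a) (hHr a)]
      exact (mk_set_le _).trans hK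
    obtain ⟨f⟩ := (Cardinal.le_def _ _).1 h3
    exact ⟨f, f.injective⟩
  choose φ hφ using h2
  let A : Om → Set (Fin n → ℝ) := fun a => range fun x => (φ a x).1
  have hA : ∀ a, #(A a) = #(k a) := fun a =>
    mk_range_eq _ fun x y h => hφ a (Subtype.ext h)
  have hAH : ∀ a, A a ⊆ H a := by
    rintro a _ ⟨x, rfl⟩
    exact (φ a x).2
  refine ⟨⋃ a, A a, ?_, fun B hB => ?_⟩
  · by_contra hcon
    push Not at hcon
    have h3 : ∀ a, #(k a) ≤ #(⋃ a, A a) := fun a => by
      rw [← hA a]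
      exact mk_le_mk_of_subset (subset_iUnion A a)
    have h4 : #K ≤ #Om * #(⋃ a, A a) := by
      have h5 : (univ : Set K) ⊆ ⋃ a, k a := fun x _ => mem_iUnion.2 (hk.2.1 x)
      have h6 : #K ≤ #(⋃ a, k a) := by
        rw [← mk_univ]
        exact mk_le_mk_of_subset h5
      refine h6.trans ((mk_iUnion_le_sum_mk).trans ?_)
      refine (sum_le_sum _ _ h3).trans ?_
      rw [sum_const']
    have h5 : #Om = ℵ₁ := by simp
    rw [h5] at h4
    exact absurd h4 (not_le.2 (mul_lt_of_lt hK0.le hK1 hcon))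
  · obtain ⟨U, hU1, hU2, hU3⟩ := exists_code hB
    obtain ⟨a, ha⟩ := hD' U hU1 hU2
    have h3 : (⋃ b, A b) ∩ B ⊆ ⋃ b : {b : Om // b < a}, A b.1 := by
      rintro x ⟨hx, hxB⟩
      obtain ⟨b, hb⟩ := mem_iUnion.1 hx
      rcases lt_or_ge b a with h | h
      · exact mem_iUnion.2 ⟨⟨b, h⟩, hb⟩
      · exfalso
        have h4 := mem_iInter.1 (hAH b hb) ⟨a, h⟩
        refine disjoint_left.1 hU3 (mem_iInter.2 fun m => ?_) hxB
        obtain ⟨I, hI⟩ := mem_iUnion.1 (mem_iInter.1 h4 m)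
        exact mem_iUnion.2 ⟨⟨I.1, ha I.2⟩, hI⟩
    have h4 : #(⋃ b : {b : Om // b < a}, A b.1) ≤ ℵ₀ * #(k a) := by
      refine mk_iUnion_le_sum_mk.trans ?_
      refine (sum_le_sum _ (fun _ => #(k a)) fun b => ?_).trans ?_
      · rw [hA]
        exact mk_le_mk_of_subset (hk.1 _ _ b.2.le)
      · rw [sum_const']
        have := countable_Iio a
        exact mul_le_mul' (mk_le_aleph0_iff.2 this) le_rfl
    exact ((mk_le_mk_of_subset h3).trans h4).trans_lt (mul_lt_of_lt hK0.le hK0 (hlt' a))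

/-! ### No Luzin subgroup -/

/-- a coordinate which takes many values -/
theorem exists_coord {n : ℕ} {Λ : Type} (hΛ : ℵ₀ < #Λ) (h : Λ → Fin n → ℝ)
    (hh : Function.Injective h) : ∃ (i : Fin n) (u : Λ → Λ),
      Function.Injective fun x => h (u x) i := by
  classical
  have h1 : ∃ i, #Λ ≤ #(range fun x => h x i) := by
    by_contra hcon
    push Not at hcon
    let c : Cardinal.{0} := max ℵ₀ (Finset.univ.sup fun i : Fin n => #(range fun x => h x i))
    have hc : c < #Λ := by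
      refine max_lt hΛ ?_
      rw [Finset.sup_lt_iff (by exact (zero_le (a := ℵ₀)).trans_lt hΛ)]
      intro i _
      exact hcon i
    have h2 : #Λ ≤ c ^ n := by
      let f : Λ → ∀ i : Fin n, range fun x => h x i := fun x i => ⟨h x i, x, rfl⟩
      have hf : Function.Injective f := fun x y hxy => hh <| funext fun i =>
        congrArg Subtype.val (congrFun hxy i)
      refine (mk_le_of_injective hf).trans ?_
      rw [mk_pi]
      refine (prod_le_prod _ (fun _ => c) fun i => ?_).trans ?_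
      · exact (Finset.le_sup (f := fun i : Fin n => #(range fun x => h x i))
          (Finset.mem_univ i)).trans (le_max_right _ _)
      · rw [prod_const', mk_fin]
        simp
    exact absurd (h2.trans (power_nat_le (le_max_left _ _))) (not_le.2 hc)
  obtain ⟨i, hi⟩ := h1
  obtain ⟨f⟩ := (Cardinal.le_def _ _).1 hi
  choose u hu using fun x => (f x).2
  refine ⟨i, u, fun x y hxy => f.injective (Subtype.ext ?_)⟩
  rw [← hu x, ← hu y]
  exact hxy

theorem no_group {n : ℕ} {K : Type} {k : Om → Set K} {a₀ : Om}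
    (hk : Filtration k a₀) (hlt : ∀ a, ¬ ∃ F : K → k a, Function.Injective F)
    (hX : ∀ X : k a₀ → Set ℕ, Function.Injective X → NotSMZ X) (G : AddSubgroup (Fin n → ℝ)) :
    ¬ IsLuzin (#K) (G : Set (Fin n → ℝ)) := by
  rintro ⟨hG, hG'⟩
  obtain ⟨hlt', h1⟩ := lt_of_filtration hk hlt
  have hK1 : ℵ₁ < #K := h1.trans_lt (hlt' a₀)
  have hK0 : ℵ₀ < #K := aleph0_lt_aleph_one.trans hK1
  have h2 : #(k a₀) ≤ #(G : Set (Fin n → ℝ)) := (hlt' a₀).le.trans hG
  obtain ⟨f⟩ := (Cardinal.le_def _ _).1 h2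
  obtain ⟨i, u, hu⟩ := exists_coord (aleph0_lt_aleph_one.trans_le h1) (fun x => (f x).1)
    (fun x y hxy => f.injective (Subtype.ext hxy))
  obtain ⟨D, hD1, hD2, hD3⟩ := exists_open (fun x => (f (u x)).1 i)
    (hX _ (code_injective.comp hu))
  let N : Set (Fin n → ℝ) := {y | y i ∉ D}
  have hN : IsMeagre N := by
    show Nᶜ ∈ _
    have h3 : Nᶜ = (fun y : Fin n → ℝ => y i) ⁻¹' D := by
      ext y
      simp [N]
    rw [h3]
    refine residual_of_dense_open (hD1.preimage (continuous_apply i)) ?_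
    exact hD2.preimage (isOpenMap_eval i)
  choose j hj using fun z : ↥(G : Set (Fin n → ℝ)) => hD3 (z.1 i)
  let F : ↥(G : Set (Fin n → ℝ)) → k a₀ × ↥((G : Set (Fin n → ℝ)) ∩ N) := fun z =>
    (u (j z), ⟨z.1 - (f (u (j z))).1, G.sub_mem z.2 (f (u (j z))).2, hj z⟩)
  have hF : Function.Injective F := by
    intro z w hzw
    have h3 : u (j z) = u (j w) := congrArg Prod.fst hzw
    have h4 : z.1 - (f (u (j z))).1 = w.1 - (f (u (j w))).1 :=
      congrArg Subtype.val (congrArg Prod.snd hzw)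
    rw [h3] at h4
    exact Subtype.ext (sub_left_injective h4)
  have h3 := mk_le_of_injective hF
  rw [mk_prod, Cardinal.lift_id, Cardinal.lift_id] at h3
  exact absurd (hG.trans h3) (not_le.2 (mul_lt_of_lt hK0.le (hlt' a₀) (hG' N hN)))

/-- **The principle gives a Luzin set and no Luzin subgroup.** -/
theorem failure_of_ax (h : SingAx) : ∃ κ : Cardinal.{0}, ℵ₀ < κ ∧ ∀ n : ℕ, 1 ≤ n →
    (∃ A : Set (Fin n → ℝ), IsLuzin κ A) ∧
      ¬ ∃ G : AddSubgroup (Fin n → ℝ), IsLuzin κ (G : Set (Fin n → ℝ)) := by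
  obtain ⟨K, k, a₀, hk, hlt, hY, hC, hX⟩ := h
  obtain ⟨hlt', h1⟩ := lt_of_filtration hk hlt
  refine ⟨#K, aleph0_lt_aleph_one.trans (h1.trans_lt (hlt' a₀)), fun n hn =>
    ⟨exists_luzin hn hk hlt hY (hC n), ?_⟩⟩
  rintro ⟨G, hG⟩
  exact no_group hk hlt hX G hG

end Pool.Agent.H87.Luz
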