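import Pool.Agent.H87.Luz.Defs

/-!
# Families of reals which do not have strong measure zero
-/

set_option autoImplicit false

namespace Pool.Agent.H87.Luz

open Cardinal Set

/-- The code of a real: the set of the pairs `(n, ⌊2 ^ n x⌋)`. -/
noncomputable def code (x : ℝ) : Set ℕ :=
  {k | (Nat.unpair k).2 = Encodable.encode ⌊(2 : ℝ) ^ (Nat.unpair k).1 * x⌋}

/-- The code up to level `l` of the reals `x` with `⌊2 ^ l x⌋ = v`. -/
def codeOf (l : ℕ) (v : ℤ) : Set ℕ :=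
  {k | (Nat.unpair k).2 = Encodable.encode (v / 2 ^ (l - (Nat.unpair k).1))}

theorem floor_level (x : ℝ) {n l : ℕ} (h : n ≤ l) :
    ⌊(2 : ℝ) ^ n * x⌋ = ⌊(2 : ℝ) ^ l * x⌋ / 2 ^ (l - n) := by
  have h1 := Int.floor_div_natCast ((2 : ℝ) ^ l * x) (2 ^ (l - n))
  push_cast at h1
  rw [← h1]
  congr 1
  have h2 : (2 : ℝ) ^ l = 2 ^ n * 2 ^ (l - n) := by
    rw [← pow_add]
    congr 1
    omega
  have h3 : (2 : ℝ) ^ (l - n) ≠ 0 := by positivity
  rw [h2]
  field_simp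

theorem mem_code_iff (x : ℝ) {l k : ℕ} (h : (Nat.unpair k).1 ≤ l) :
    k ∈ code x ↔ k ∈ codeOf l ⌊(2 : ℝ) ^ l * x⌋ := by
  show _ = _ ↔ _ = _
  rw [floor_level x h]

theorem code_injective : Function.Injective code := by
  intro x y hxy
  have h1 : ∀ n : ℕ, ⌊(2 : ℝ) ^ n * x⌋ = ⌊(2 : ℝ) ^ n * y⌋ := by
    intro n
    have h2 : Nat.pair n (Encodable.encode ⌊(2 : ℝ) ^ n * x⌋) ∈ code x := by
      simp [code]
    rw [hxy] at h2
    simpa [code] using h2
  by_contra hne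
  have h3 : 0 < |x - y| := abs_pos.2 (sub_ne_zero.2 hne)
  obtain ⟨n, hn⟩ := pow_unbounded_of_one_lt (|x - y|⁻¹) (one_lt_two (α := ℝ))
  have h4 := Int.abs_sub_lt_one_of_floor_eq_floor (h1 n)
  rw [← mul_sub, abs_mul, abs_of_pos (by positivity : (0 : ℝ) < 2 ^ n)] at h4
  have h5 : (1 : ℝ) < 2 ^ n * |x - y| := by
    rw [inv_lt_iff_one_lt_mul₀ h3] at hn
    exact hn
  linarith

/-- For a family of reals without strong measure zero there is a dense open set `D` such that for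
each `z` some `z - X j` is not in `D`. -/
theorem exists_open {Λ : Type} (X : Λ → ℝ) (hX : NotSMZ fun j => code (X j)) :
    ∃ D : Set ℝ, IsOpen D ∧ Dense D ∧ ∀ z, ∃ j, z - X j ∉ D := by
  obtain ⟨E, hE, h⟩ := hX
  choose b hb using hE
  obtain ⟨q, hq⟩ := exists_surjective_nat ℚ
  let l : ℕ → ℕ := fun n => max (b (2 * n)) (b (2 * n + 1))
  let ε : ℕ → ℝ := fun n => ((2 : ℝ) ^ (l n))⁻¹ / 2
  have hε : ∀ n, 0 < ε n := fun n => by positivity
  let D : Set ℝ := ⋃ n, Ioo ((q n : ℝ) - ε n) (q n + ε n)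
  refine ⟨D, isOpen_iUnion fun n => isOpen_Ioo, ?_, fun z => ?_⟩
  · refine Rat.denseRange_cast (𝕜 := ℝ) |>.mono ?_
    rintro _ ⟨r, rfl⟩
    obtain ⟨n, rfl⟩ := hq r
    exact mem_iUnion.2 ⟨n, by constructor <;> linarith [hε n]⟩
  · let v : ℕ → ℤ := fun n => ⌊(2 : ℝ) ^ (l n) * (z - q n - ε n)⌋
    let S : Set (ℕ × ℕ) := {x | x.2 ∈ codeOf (l (x.1 / 2)) (v (x.1 / 2) + (x.1 % 2 : ℕ))}
    obtain ⟨j, hj⟩ := h S
    refine ⟨j, fun hD => ?_⟩
    obtain ⟨n, hn⟩ := mem_iUnion.1 hD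
    have h1 : z - q n - ε n < X j := by linarith [hn.2]
    have h2 : X j < z - q n + ε n := by linarith [hn.1]
    have hpos : (0 : ℝ) < 2 ^ (l n) := by positivity
    have h3 : (2 : ℝ) ^ (l n) * (z - q n - ε n) < 2 ^ (l n) * X j := by
      exact mul_lt_mul_of_pos_left h1 hpos
    have h4 : (2 : ℝ) ^ (l n) * X j < 2 ^ (l n) * (z - q n - ε n) + 1 := by
      have h5 : (2 : ℝ) ^ (l n) * X j < 2 ^ (l n) * (z - q n + ε n) :=
        mul_lt_mul_of_pos_left h2 hpos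
      have h6 : (2 : ℝ) ^ (l n) * (2 * ε n) = 1 := by
        simp only [ε]
        field_simp
      nlinarith
    have h5 : v n ≤ ⌊(2 : ℝ) ^ (l n) * X j⌋ := Int.floor_le_floor h3.le
    have h6 : ⌊(2 : ℝ) ^ (l n) * X j⌋ ≤ v n + 1 := by
      rw [← Int.floor_add_one]
      exact Int.floor_le_floor h4.le
    have key : ∀ e : ℕ, e < 2 → ⌊(2 : ℝ) ^ (l n) * X j⌋ = v n + (e : ℕ) → False := by
      intro e he h7
      obtain ⟨m, hm, hm'⟩ := hj (2 * n + e)
      apply hm'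
      have h8 : m < b (2 * n + e) := hb _ m hm
      have h9 : b (2 * n + e) ≤ l n := by
        interval_cases e
        · exact le_max_left _ _
        · exact le_max_right _ _
      have h10 : (Nat.unpair m).1 ≤ l n := (Nat.unpair_left_le m).trans (by omega)
      rw [mem_code_iff (X j) h10, h7]
      have h11 : (2 * n + e) / 2 = n := by omega
      have h12 : (2 * n + e) % 2 = e := by omega
      show _ ↔ _ ∈ codeOf (l ((2 * n + e) / 2)) (v ((2 * n + e) / 2) + ((2 * n + e) % 2 : ℕ))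
      rw [h11, h12]
    rcases (show ⌊(2 : ℝ) ^ (l n) * X j⌋ = v n + (0 : ℕ) ∨
      ⌊(2 : ℝ) ^ (l n) * X j⌋ = v n + (1 : ℕ) by push_cast; omega) with h7 | h7
    · exact key 0 (by norm_num) h7
    · exact key 1 (by norm_num) h7

end Pool.Agent.H87.Luz
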