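import Pool.Agent.H87.Luz.Glue

/-!
# Large families of reals do not have strong measure zero in the extension
-/

set_option autoImplicit false

namespace Pool.Agent.H87.Luz.Silver

open Cardinal Set
open Pool.Agent.Helper292.ForceCH (fnot fand fall fimp fiff fex fground meets IsFun IsOnto Om
  mem_fex mem_fimp down_meets meets_of_dense fimp_of down_fnot)
open Pool.Agent.H87.CPos (Distinct)

variable {K : Type}

/-- Few constraints leave a candidate. -/
theorem exists_choice (d : Data) {t : Silver ℕ} {F B : Finset (ℕ × ℕ)} {M : ℕ}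
    {β : ℕ → Finset (ℕ × ℕ)} {m : ℕ}
    (h : ∀ ζ ⊆ F, ∀ i i', i < M → i' < M → i ≠ i' → Sep d t F B ζ (β i) (β i') m)
    {ι : Type} (𝒯 : Finset ι) (S : ι → Set ℕ) (hM : 2 ^ F.card * 𝒯.card < M) :
    ∃ i < M, ∀ T ∈ 𝒯, ∀ z, t.Ext z → tr z B = β i → ∃ n < m, ¬ (n ∈ d.X z ↔ n ∈ S T) := by
  classical
  by_contra hcon
  push Not at hcon
  have hcon' : ∀ i, ∃ (T : ι) (z : ℕ → ℕ → Bool), i < M → T ∈ 𝒯 ∧ t.Ext z ∧ tr z B = β i ∧
      ∀ n < m, (n ∈ d.X z ↔ n ∈ S T) := by
    intro i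
    by_cases hi : i < M
    · obtain ⟨T, h1, z, h2, h3, h4⟩ := hcon i hi
      exact ⟨T, z, fun _ => ⟨h1, h2, h3, h4⟩⟩
    · have hne : 𝒯.Nonempty := by
        obtain ⟨T, h1, -⟩ := hcon 0 (by omega)
        exact ⟨T, h1⟩
      exact ⟨hne.choose, fun _ _ => false, fun h => absurd h hi⟩
  choose T z hTz using hcon'
  obtain ⟨i, hi, i', hi', hne, heq⟩ := Finset.exists_ne_map_eq_of_card_lt_of_maps_to
    (s := Finset.range M) (t := F.powerset ×ˢ 𝒯) (f := fun i => (tr (z i) F, T i))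
    (by rw [Finset.card_product, Finset.card_powerset, Finset.card_range]; exact hM)
    (by
      intro i hi
      have h1 := hTz i (Finset.mem_range.1 hi)
      exact Finset.mem_product.2 ⟨Finset.mem_powerset.2 (tr_subset _ _), h1.1⟩)
  obtain ⟨a1, a2, a3, a4⟩ := hTz i (Finset.mem_range.1 hi)
  obtain ⟨b1, b2, b3, b4⟩ := hTz i' (Finset.mem_range.1 hi')
  have h1 : tr (z i) F = tr (z i') F := congrArg Prod.fst heq
  have h2 : T i = T i' := congrArg Prod.snd heq
  obtain ⟨n, hn, hn'⟩ := h (tr (z i) F) (tr_subset _ _) i i' (Finset.mem_range.1 hi)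
    (Finset.mem_range.1 hi') hne (z i) (z i') a2 b2 rfl h1.symm a3 b3
  apply hn'
  rw [a4 n hn, b4 n hn, h2]

theorem dec_finite (N : ℕ → Set (Silver K)) (m : ℕ) (q : Silver K) :
    ∃ r ≤ q, ∀ n < m, r ∈ meets (N n) ∨ r ∈ fnot (meets (N n)) := by
  induction m with
  | zero => exact ⟨q, le_rfl, fun n hn => absurd hn (Nat.not_lt_zero n)⟩
  | succ m ih =>
    obtain ⟨r, hr, h⟩ := ih
    obtain ⟨s, hs, h'⟩ := dec_dense (N m) r
    refine ⟨s, hs.trans hr, fun n hn => ?_⟩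
    rcases Nat.lt_succ_iff_lt_or_eq.1 hn with hn | rfl
    · exact dec_down (h n hn) hs
    · exact h'

theorem exists_enumFn (K : Type) :
    ∃ g : Set K → ℕ → Option (Set.univ : Set K), ∀ r : Set K, r.Countable → enumSet (g r) = r := by
  have h : ∀ r : Set K, ∃ g : ℕ → Option (Set.univ : Set K), r.Countable → enumSet g = r := by
    intro r
    by_cases hr : r.Countable
    · obtain ⟨g, hg⟩ := exists_enum hr (subset_univ r)
      exact ⟨g, fun _ => hg⟩
    · exact ⟨fun _ => none, fun h => absurd h hr⟩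
  choose g hg using h
  exact ⟨g, hg⟩

/-- the colours -/
abbrev Col : Type := (ℕ → ℕ → Option Bool) × (ℕ → Finset (ℕ × ℕ)) × Set (ℕ × Finset (ℕ × ℕ)) ×
  Set (ℕ × ℕ)

theorem mk_col : #Col ≤ 𝔠 := by
  have h1 : #(ℕ → ℕ → Option Bool) ≤ 𝔠 := by
    simp only [← power_def, mk_nat, mk_option, mk_bool]
    have h1 : ((2 : Cardinal.{0}) + 1) ^ ℵ₀ ≤ 𝔠 := by
      refine (Cardinal.power_le_power_right (show (2 : Cardinal.{0}) + 1 ≤ ℵ₀ from ?_)).trans ?_
      · exact (add_lt_aleph0 (natCast_lt_aleph0 (n := 2)) one_lt_aleph0).le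
      · rw [aleph0_power_aleph0]
    refine (Cardinal.power_le_power_right h1).trans ?_
    rw [continuum_power_aleph0]
  have h2 : #(ℕ → Finset (ℕ × ℕ)) ≤ 𝔠 := by
    rw [← power_def, mk_nat]
    refine (Cardinal.power_le_power_right (mk_le_aleph0 (α := Finset (ℕ × ℕ)))).trans ?_
    rw [aleph0_power_aleph0]
  have h3 : #(Set (ℕ × Finset (ℕ × ℕ))) ≤ 𝔠 := by
    rw [mk_set]
    exact (Cardinal.power_le_power_left two_ne_zero mk_le_aleph0).trans
      two_power_aleph0.le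
  have h4 : #(Set (ℕ × ℕ)) ≤ 𝔠 := by
    rw [mk_set]
    exact (Cardinal.power_le_power_left two_ne_zero mk_le_aleph0).trans
      two_power_aleph0.le
  simp only [mk_prod, Cardinal.lift_id]
  calc _ ≤ 𝔠 * (𝔠 * (𝔠 * 𝔠)) := mul_le_mul' h1 (mul_le_mul' h2 (mul_le_mul' h3 h4))
    _ = 𝔠 := by simp only [continuum_mul_self]

/-- **Families of more than continuum many reals do not have strong measure zero.** -/
theorem notSMZ [Infinite K] {Λ : Type} (hΛ : 𝔠 < #Λ) (X : Λ → ℕ → Set (Silver K))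
    (p : Silver K) : p ∈ fimp (Distinct X) (NotSMZName X) := by
  classical
  refine mem_fimp.2 fun q₀ _ hq₀ => ?_
  choose w hw F hF using fun j => exists_fused (X j) q₀
  have hA : ∀ j, ((w j).supp ∪ ⋃ n, Prod.fst '' (F j n : Set (K × ℕ))).Countable := fun j =>
    (w j).supp_ctb.union (countable_iUnion fun n => ((F j n).countable_toSet).image _)
  choose e he heA using fun j => exists_inj_enum (hA j)
  have hsupp : ∀ j k, k ∈ (w j).supp → k ∈ range (e j) := fun j k hk => heA j (Or.inl hk)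
  choose G hG using fun j n => exists_preimage (e := e j) (F := F j n) fun x hx =>
    heA j (Or.inr (mem_iUnion.2 ⟨n, x, hx, rfl⟩))
  let T : Λ → Set (ℕ × Finset (ℕ × ℕ)) := fun j =>
    {x | (w j).ext (F j x.1) (x.2.image (lift (e j))) ∈ meets (X j x.1)}
  obtain ⟨g, hg⟩ := exists_enumFn K
  let c : Set K → Λ → Col := fun r j => (fun i m => (w j).f (e j i) m, G j, T j,
    {x | ∃ y, g r x.2 = some y ∧ y.1 = e j x.1})
  obtain ⟨r, γ, hr, hdelta⟩ := delta (fun j => range (e j)) (fun j => countable_range _) mk_col c hΛ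
  obtain ⟨j₀, -, -, -, hj₀⟩ := hdelta ∅ countable_empty ∅ countable_empty
  let ρ : Set ℕ := {i | e j₀ i ∈ r}
  -- consequences of having the same type
  have htype : ∀ j, c r j = γ → (∀ i m, (w j).f (e j i) m = (w j₀).f (e j₀ i) m) ∧
      G j = G j₀ ∧ T j = T j₀ ∧ (∀ i, e j i ∈ r ↔ i ∈ ρ) ∧ ∀ i ∈ ρ, e j i = e j₀ i := by
    intro j hj
    have h1 : c r j = c r j₀ := hj.trans hj₀.symm
    have h2 : (fun i m => (w j).f (e j i) m) = fun i m => (w j₀).f (e j₀ i) m :=
      congrArg Prod.fst h1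
    have h3 : G j = G j₀ := congrArg (fun x => x.2.1) h1
    have h4 : T j = T j₀ := congrArg (fun x => x.2.2.1) h1
    have h5 : {x : ℕ × ℕ | ∃ y, g r x.2 = some y ∧ y.1 = e j x.1} =
        {x : ℕ × ℕ | ∃ y, g r x.2 = some y ∧ y.1 = e j₀ x.1} := congrArg (fun x => x.2.2.2) h1
    have key : ∀ (j j' : Λ), {x : ℕ × ℕ | ∃ y, g r x.2 = some y ∧ y.1 = e j x.1} =
        {x : ℕ × ℕ | ∃ y, g r x.2 = some y ∧ y.1 = e j' x.1} → ∀ i, e j i ∈ r →
        e j' i = e j i := by
      intro j j' hjj' i hi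
      rw [← hg r hr] at hi
      obtain ⟨n, y, hy, hy'⟩ := hi
      have h6 : ((i, n) : ℕ × ℕ) ∈ {x : ℕ × ℕ | ∃ y, g r x.2 = some y ∧ y.1 = e j x.1} :=
        ⟨y, hy, hy'⟩
      rw [hjj'] at h6
      obtain ⟨y', h7, h8⟩ := h6
      have h9 : some y = some y' := hy.symm.trans h7
      rw [← hy', Option.some.inj h9]
      exact h8.symm
    refine ⟨fun i m => congrFun (congrFun h2 i) m, h3, h4, fun i => ⟨fun hi => ?_, fun hi => ?_⟩,
      fun i hi => key j₀ j h5.symm i hi⟩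
    · show e j₀ i ∈ r
      rw [key j j₀ h5 i hi]
      exact hi
    · rw [key j₀ j h5.symm i hi]
      exact hi
  let Xv : (ℕ → ℕ → Bool) → Set ℕ := fun z => {n | (n, tr z (G j₀ n)) ∈ T j₀}
  have hreal : ∀ j, c r j = γ → ∀ (Z : K → ℕ → Bool) (n : ℕ),
      n ∈ real (X j) (w j) (F j) Z ↔ n ∈ Xv fun i m => Z (e j i) m := by
    intro j hj Z n
    obtain ⟨-, h3, h4, -, -⟩ := htype j hj
    show (w j).ext (F j n) (tr Z (F j n)) ∈ meets (X j n) ↔ (n, tr _ (G j₀ n)) ∈ T j₀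
    rw [← h3, ← h4]
    show _ ↔ (w j).ext (F j n) ((tr (fun i m => Z (e j i) m) (G j n)).image (lift (e j))) ∈
      meets (X j n)
    rw [← tr_image, hG j n]
  let W : Silver ℕ := (w j₀).pull (e j₀)
  have hWf : ∀ j, c r j = γ → ∀ i m, (w j).f (e j i) m = W.f i m := fun j hj => (htype j hj).1
  have hwrange : ∀ j k m b, (w j).f k m = some b → ∃ i, e j i = k := fun j k m b hb =>
    hsupp j k ⟨m, by rw [hb]; simp⟩
  -- the value depends on the columns outside the root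
  have hnc : ∀ t, t ≤ W → ∃ z z', t.Ext z ∧ t.Ext z' ∧ (∀ i ∈ ρ, ∀ m, z i m = z' i m) ∧
      Xv z ≠ Xv z' := by
    intro t ht
    by_contra hcon
    push Not at hcon
    obtain ⟨j₁, -, -, -, hj₁⟩ := hdelta ∅ countable_empty ∅ countable_empty
    obtain ⟨j₂, hj₂, -, hj₂', hj₂''⟩ := hdelta (range (e j₁)) (countable_range _) {j₁}
      (countable_singleton _)
    have hne : j₁ ≠ j₂ := fun h => hj₂ (by rw [h]; rfl)
    let u₁ : Silver K := (Silver.empty).glue (e j₁) ∅ t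
    let u : Silver K := u₁.glue (e j₂) ρ t
    obtain ⟨-, -, -, hr1, hr1'⟩ := htype j₁ hj₁
    obtain ⟨-, -, -, hr2, hr2'⟩ := htype j₂ hj₂''
    have hu₁ : ∀ i m, u₁.f (e j₁ i) m = t.f i m := fun i m =>
      glue_in _ (he j₁) _ (notMem_empty i) m
    have hroot : ∀ i i', e j₂ i = e j₁ i' → i ∈ ρ := by
      intro i i' h
      exact (hr2 i).1 (hj₂' ⟨⟨i, rfl⟩, ⟨i', h.symm⟩⟩)
    have hu1 : ∀ i m, u.f (e j₁ i) m = t.f i m := by
      intro i m
      rw [← hu₁ i m]
      exact glue_out _ _ _ (fun i' hi' h => hi' (hroot i' i h)) m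
    have hu2 : ∀ i m, u.f (e j₂ i) m = t.f i m := by
      intro i m
      by_cases hi : i ∈ ρ
      · rw [hr2' i hi, ← hr1' i hi]
        exact hu1 i m
      · exact glue_in _ (he j₂) _ hi m
    have hle1 : u ≤ w j₁ := by
      intro k m b hb
      obtain ⟨i, rfl⟩ := hwrange j₁ k m b hb
      rw [hu1]
      rw [hWf j₁ hj₁] at hb
      exact ht i m b hb
    have hle2 : u ≤ w j₂ := by
      intro k m b hb
      obtain ⟨i, rfl⟩ := hwrange j₂ k m b hb
      rw [hu2]
      rw [hWf j₂ hj₂''] at hb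
      exact ht i m b hb
    refine hq₀ j₁ j₂ hne u (hle1.trans (hw j₁)) fun n => ?_
    refine fiff_of_real (hF j₁) (hF j₂) hle1 hle2 n fun z hz => ?_
    rw [hreal j₁ hj₁, hreal j₂ hj₂'']
    have h1 : Xv (fun i m => z (e j₁ i) m) = Xv fun i m => z (e j₂ i) m := by
      refine hcon _ _ (fun i m b hb => hz _ _ _ (by rw [hu1]; exact hb))
        (fun i m b hb => hz _ _ _ (by rw [hu2]; exact hb)) fun i hi m => ?_
      rw [hr1' i hi, hr2' i hi]
    rw [h1]
  let d : Data := ⟨W, Xv, G j₀, ρ, fun n z z' _ _ h => by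
    have h1 : tr z (G j₀ n) = tr z' (G j₀ n) := by
      ext x
      rw [mem_tr, mem_tr]
      constructor
      · rintro ⟨h2, h3⟩
        exact ⟨h2, by rw [← h x h2]; exact h3⟩
      · rintro ⟨h2, h3⟩
        exact ⟨h2, by rw [h x h2]; exact h3⟩
    show (n, tr z (G j₀ n)) ∈ T j₀ ↔ (n, tr z' (G j₀ n)) ∈ T j₀
    rw [h1], hnc⟩
  obtain ⟨t, ht, H, H', β, b, h1, h2, h3, h4, h5, h6, h7⟩ := exists_tree d
    fun n k => 2 ^ k * 2 ^ (∑ k ∈ Finset.range n, (k + 1) ^ 2) + 1
  have ht : t ≤ W := ht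
  -- the condition which forces that the family does not have strong measure zero
  let s : Silver K := q₀.glue (e j₀) ρᶜ t
  have hs_in : ∀ i ∈ ρ, ∀ m, s.f (e j₀ i) m = t.f i m := fun i hi m =>
    glue_in _ (he j₀) _ (Set.notMem_compl_iff.2 hi) m
  have hs : s ≤ q₀ := by
    intro k m a ha
    by_cases h : ∃ i ∈ ρ, e j₀ i = k
    · obtain ⟨i, hi, rfl⟩ := h
      rw [hs_in i hi]
      exact ht i m a (hw j₀ _ _ _ ha)
    · push Not at h
      rw [show s.f k m = q₀.f k m from glue_out _ _ _ (fun i hi => h i (not_not.1 hi)) m]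
      exact ha
  refine ⟨s, hs, ?_⟩
  let E : ℕ × ℕ → Set (Silver K) := fun x => fground (x.2 < b x.1)
  have hE : ∀ (x : ℕ × ℕ) (q : Silver K), q ∈ meets (E x) ↔ x.2 < b x.1 := by
    intro x q
    constructor
    · intro h
      obtain ⟨_, _, y, hy, _⟩ := h q le_rfl
      exact hy
    · intro h q' _
      exact ⟨q', le_rfl, q', h, le_rfl⟩
  refine mem_fex.2 fun s₁ hs₁ => ⟨s₁, le_rfl, E, fun n => mem_fex.2 fun s₂ _ =>
    ⟨s₂, le_rfl, b n, fun m => fimp_of fun q _ hq => (hE (n, m) q).1 hq⟩, fun S => ?_⟩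
  refine mem_fex.2 fun q hq => ?_
  -- continuous reading of the name of the covering
  obtain ⟨v, hv, F'', -, hcard, hF''⟩ := fusion_sweep (α := fun _ => Unit) (fun _ => ())
    (fun n _ _ => {p : Silver K | ∀ m < b n, p ∈ meets (S (n, m)) ∨ p ∈ fnot (meets (S (n, m)))})
    (fun n _ _ _ p q _ hqp h m hm => dec_down (h m hm) hqp) q
    (fun n _ q _ a _ => by
      obtain ⟨r, hr, h⟩ := dec_finite (fun m => S (n, m)) (b n) q
      exact ⟨r, hr, a, le_rfl, h⟩)
  have hdec : ∀ n T, T ⊆ F'' n → ∀ m < b n, v.ext (F'' n) T ∈ meets (S (n, m)) ∨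
      v.ext (F'' n) T ∈ fnot (meets (S (n, m))) := by
    intro n T hT
    obtain ⟨_, _, h⟩ := hF'' n
    exact h T hT
  let Sv : ℕ → Finset (K × ℕ) → Set ℕ := fun n T => {m | v.ext (F'' n) T ∈ meets (S (n, m))}
  obtain ⟨j, -, -, hj, hj'⟩ := hdelta v.supp v.supp_ctb ∅ countable_empty
  obtain ⟨-, -, -, hrj, hrj'⟩ := htype j hj'
  -- the choice of the candidates
  have hchoice : ∀ n, ∃ i, ∀ T ⊆ F'' n, ∀ z, t.Ext z → tr z (H' n \ H n) = β n i →
      ∃ m < b n, ¬ (m ∈ Xv z ↔ m ∈ Sv n T) := by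
    intro n
    obtain ⟨i, -, hi⟩ := exists_choice d (h6 n) (F'' n).powerset (Sv n) (by
      rw [Finset.card_powerset]
      exact Nat.lt_succ_of_le (Nat.mul_le_mul_left _ (Nat.pow_le_pow_right two_pos (hcard n))))
    exact ⟨i, fun T hT => hi T (Finset.mem_powerset.2 hT)⟩
  choose ι hι using hchoice
  have hmonoH : ∀ n n', n ≤ n' → H n ⊆ H n' := fun n n' h =>
    monotone_nat_of_le_succ (f := H) (fun k => (h1 k).trans (h2 k)) h
  have hdisj : ∀ n n' x, x ∈ H' n \ H n → x ∈ H' n' \ H n' → n = n' := by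
    have key : ∀ n n' x, n < n' → x ∈ H' n \ H n → x ∈ H' n' \ H n' → False := by
      intro n n' x hn hx hx'
      exact (Finset.mem_sdiff.1 hx').2 (hmonoH (n + 1) n' hn (h2 n (Finset.mem_sdiff.1 hx).1))
    intro n n' x hx hx'
    rcases lt_trichotomy n n' with h | h | h
    · exact (key n n' x h hx hx').elim
    · exact h
    · exact (key n' n x h hx' hx).elim
  -- the condition with the blocks filled in
  let v₀f : ℕ → ℕ → Option Bool := fun i m => if ∃ n, (i, m) ∈ H' n \ H n then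
    some (decide (∃ n, (i, m) ∈ β n (ι n))) else t.f i m
  have hv₀none : ∀ i m, v₀f i m = none ↔ (¬ ∃ n, (i, m) ∈ H' n \ H n) ∧ t.f i m = none := by
    intro i m
    by_cases h : ∃ n, (i, m) ∈ H' n \ H n
    · simp only [v₀f, if_pos h]
      constructor
      · intro h'
        exact absurd h' (by simp)
      · rintro ⟨h', -⟩
        exact absurd h h'
    · simp only [v₀f, if_neg h]
      exact ⟨fun h' => ⟨h, h'⟩, fun h' => h'.2⟩
  let v₀ : Silver ℕ := ⟨v₀f, Set.to_countable _, by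
    intro i
    by_cases hi : i ∈ t.supp ∨ ∃ n m, (i, m) ∈ H' n
    · refine (h7 i hi).mono ?_
      rintro m ⟨n, hm, hm'⟩
      refine (hv₀none i m).2 ⟨?_, h3 (n + 1) _ (h1 _ hm)⟩
      rintro ⟨n', hn'⟩
      rw [Finset.mem_sdiff] at hn'
      rcases Nat.lt_or_ge n n' with h | h
      · exact hn'.2 (hmonoH (n + 1) n' h hm)
      · exact hm' ((show H' n' ⊆ H' n from by
          rcases h.eq_or_lt with rfl | h
          · exact Finset.Subset.rfl
          · exact (h2 n').trans ((hmonoH (n' + 1) n h).trans (h1 n))) hn'.1)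
    · push Not at hi
      refine Set.infinite_univ.mono fun m _ => (hv₀none i m).2 ⟨?_, f_of_not_supp hi.1 m⟩
      rintro ⟨n, hn⟩
      exact hi.2 n m (Finset.mem_sdiff.1 hn).1⟩
  have hv₀t : v₀ ≤ t := by
    intro i m a ha
    show v₀f i m = some a
    have h : ¬ ∃ n, (i, m) ∈ H' n \ H n := by
      rintro ⟨n, hn⟩
      have h8 := h3 n _ (Finset.mem_sdiff.1 hn).1
      rw [h8] at ha
      exact absurd ha (by simp)
    simp only [v₀f, if_neg h]
    exact ha
  let u : Silver K := v.glue (e j) ρ v₀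
  have hu_in : ∀ i, i ∉ ρ → ∀ m, u.f (e j i) m = v₀f i m := fun i hi m => glue_in _ (he j) _ hi m
  have hu_root : ∀ i ∈ ρ, ∀ m, u.f (e j i) m = v.f (e j i) m := fun i hi m =>
    glue_out _ _ _ (fun i' hi' h => hi' (by rw [he j h]; exact hi)) m
  have huv : u ≤ v := by
    intro k m a ha
    by_cases h : ∃ i, i ∉ ρ ∧ e j i = k
    · obtain ⟨i, hi, rfl⟩ := h
      exfalso
      exact hi ((hrj i).1 (hj ⟨⟨i, rfl⟩, ⟨m, by rw [ha]; simp⟩⟩))
    · push Not at h
      rw [show u.f k m = v.f k m from glue_out _ _ _ h m]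
      exact ha
  have hvs : v ≤ s := hv.trans (hq.trans hs₁)
  have hut : ∀ i m a, t.f i m = some a → u.f (e j i) m = some a := by
    intro i m a ha
    by_cases hi : i ∈ ρ
    · rw [hu_root i hi, hrj' i hi]
      exact hvs _ _ _ (by rw [hs_in i hi]; exact ha)
    · rw [hu_in i hi]
      exact hv₀t i m a ha
  have huw : u ≤ w j := by
    intro k m a ha
    obtain ⟨i, rfl⟩ := hwrange j k m a ha
    refine hut i m a (ht i m a ?_)
    rw [← hWf j hj']
    exact ha
  refine ⟨u, huv.trans hv, j, fun n => mem_fex.2 fun u' hu' => ?_⟩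
  obtain ⟨z, hz⟩ := u'.exists_ext
  have hz' : t.Ext fun i m => z (e j i) m := fun i m a ha =>
    hz _ _ _ (hu' _ _ _ (hut i m a ha))
  have htr : tr (fun i m => z (e j i) m) (H' n \ H n) = β n (ι n) := by
    ext x
    rw [mem_tr]
    have hx' : x ∈ H' n \ H n → (z (e j x.1) x.2 = true ↔ x ∈ β n (ι n)) := by
      intro hx
      have h8 : u.f (e j x.1) x.2 = some (decide (∃ n, (x.1, x.2) ∈ β n (ι n))) := by
        rw [hu_in x.1 (h5 n x hx)]
        simp only [v₀f, if_pos (show ∃ n, (x.1, x.2) ∈ H' n \ H n from ⟨n, hx⟩)]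
      rw [hz _ _ _ (hu' _ _ _ h8), decide_eq_true_iff]
      constructor
      · rintro ⟨n', hn'⟩
        have h9 := hdisj n n' x hx (h4 n' _ hn')
        rw [h9]
        exact hn'
      · exact fun h => ⟨n, h⟩
    constructor
    · rintro ⟨hx, h⟩
      exact (hx' hx).1 h
    · intro hx
      exact ⟨h4 n _ hx, (hx' (h4 n _ hx)).2 hx⟩
  obtain ⟨m, hm, hdiff⟩ := hι n (tr z (F'' n)) (tr_subset _ _) _ hz' htr
  let O : Finset (K × ℕ) := F j m ∪ F'' n
  refine ⟨u'.ext O (tr z O), ext_tr_le hz O, m, (hE (n, m) _).2 hm, fun y hy hyf => ?_⟩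
  have hO2 : ∀ y' ≤ y, m ∈ Sv n (tr z (F'' n)) → y' ∈ meets (S (n, m)) := fun y' hy' h =>
    down_meets _ _ h _ ((hy'.trans hy).trans
      (ext_tr_le_tr (hu'.trans huv) Finset.subset_union_right hz))
  have hO3 : m ∉ Sv n (tr z (F'' n)) → y ∈ fnot (meets (S (n, m))) := fun h =>
    down_fnot _ _ ((hdec n _ (tr_subset _ _) m hm).resolve_left h) _ (hy.trans
      (ext_tr_le_tr (hu'.trans huv) Finset.subset_union_right hz))
  by_cases hX : m ∈ real (X j) (w j) (F j) z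
  · have h8 : y ∈ meets (X j m) :=
      down_meets _ _ (real_pos (hu'.trans huw) hz hX Finset.subset_union_left) _ hy
    have h9 : m ∉ Sv n (tr z (F'' n)) := by
      intro h9
      exact hdiff ⟨fun _ => h9, fun _ => (hreal j hj' z m).1 hX⟩
    obtain ⟨y', hy', h10⟩ := mem_fimp.1 hyf.1 y le_rfl h8
    exact hO3 h9 y' hy' h10
  · have h8 : y ∈ fnot (meets (X j m)) :=
      down_fnot _ _ (real_neg (hF j) (hu'.trans huw) hz hX Finset.subset_union_left) _ hy
    have h9 : m ∈ Sv n (tr z (F'' n)) := by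
      by_contra h9
      exact hdiff ⟨fun h => absurd ((hreal j hj' z m).2 h) hX, fun h => absurd h h9⟩
    obtain ⟨y', hy', h10⟩ := mem_fimp.1 hyf.2 y le_rfl (hO2 y le_rfl h9)
    exact h8 y' hy' h10

end Pool.Agent.H87.Luz.Silver
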