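import Mathlib

/-!
# The countable support product of Silver forcings, and its fusion theorem
-/

set_option autoImplicit false

namespace Pool.Agent.H87.Luz

open Set

/-- The conditions of the countable support product of `K` copies of Silver forcing: partial
functions from `K × ℕ` to `Bool`, undefined at infinitely many places of each column, and with
only countably many nonempty columns. -/
structure Silver (K : Type) where
  /-- the partial function -/
  f : K → ℕ → Option Bool
  /-- the support is countable -/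
  supp_countable : {i | ∃ n, f i n ≠ none}.Countable
  /-- there are infinitely many free places in each column -/
  free_infinite : ∀ i, {n | f i n = none}.Infinite

namespace Silver

variable {K : Type}

/-- stronger conditions are extensions -/
instance : Preorder (Silver K) where
  le q p := ∀ i n b, p.f i n = some b → q.f i n = some b
  le_refl _ _ _ _ h := h
  le_trans _ _ _ h h' i n b hb := h i n b (h' i n b hb)

theorem le_def {p q : Silver K} : q ≤ p ↔ ∀ i n b, p.f i n = some b → q.f i n = some b := Iff.rfl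

theorem none_of_le {p q : Silver K} (h : q ≤ p) {i : K} {n : ℕ} (hq : q.f i n = none) :
    p.f i n = none := by
  by_contra hc
  obtain ⟨b, hb⟩ := Option.ne_none_iff_exists'.1 hc
  rw [h i n b hb] at hq
  exact absurd hq (by simp)

/-- the support -/
def supp (p : Silver K) : Set K := {i | ∃ n, p.f i n ≠ none}

theorem supp_ctb (p : Silver K) : p.supp.Countable := p.supp_countable

theorem f_of_not_supp {p : Silver K} {i : K} (h : i ∉ p.supp) (n : ℕ) : p.f i n = none := by
  by_contra hc
  exact h ⟨n, hc⟩

/-- the empty condition -/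
def empty : Silver K where
  f _ _ := none
  supp_countable := by simp
  free_infinite _ := by simpa using Set.infinite_univ

instance : Nonempty (Silver K) := ⟨empty⟩

/-- the places in `F` are free in `p` -/
def Free (p : Silver K) (F : Finset (K × ℕ)) : Prop := ∀ x ∈ F, p.f x.1 x.2 = none

theorem Free.mono {p q : Silver K} {F : Finset (K × ℕ)} (h : q.Free F) (hqp : q ≤ p) :
    p.Free F := fun x hx => none_of_le hqp (h x hx)

theorem Free.subset {p : Silver K} {F G : Finset (K × ℕ)} (h : p.Free F) (hG : G ⊆ F) :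
    p.Free G := fun x hx => h x (hG hx)

/-- changing finitely many places -/
theorem modify_ok (p : Silver K) (F : Finset (K × ℕ)) (g : K → ℕ → Option Bool)
    (hg : ∀ i n, (i, n) ∉ F → g i n = p.f i n) :
    {i | ∃ n, g i n ≠ none}.Countable ∧ ∀ i, {n | g i n = none}.Infinite := by
  classical
  constructor
  · refine (p.supp_countable.union ((F.image Prod.fst).countable_toSet)).mono ?_
    rintro i ⟨n, hn⟩
    by_cases h : (i, n) ∈ F
    · exact Or.inr (Finset.mem_coe.2 (Finset.mem_image.2 ⟨(i, n), h, rfl⟩))
    · rw [hg i n h] at hn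
      exact Or.inl ⟨n, hn⟩
  · intro i
    refine ((p.free_infinite i).sdiff ((F.image Prod.snd).finite_toSet)).mono ?_
    rintro n ⟨hn, hn'⟩
    have h : (i, n) ∉ F := fun h => hn' (Finset.mem_coe.2 (Finset.mem_image.2 ⟨(i, n), h, rfl⟩))
    show g i n = none
    rw [hg i n h]
    exact hn

open Classical in
/-- the condition `p`, changed on `F` to the characteristic function of `T` -/
noncomputable def ext (p : Silver K) (F T : Finset (K × ℕ)) : Silver K where
  f i n := if (i, n) ∈ F then some (decide ((i, n) ∈ T)) else p.f i n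
  supp_countable := (p.modify_ok F _ fun _ _ h => if_neg h).1
  free_infinite := (p.modify_ok F _ fun _ _ h => if_neg h).2

open Classical in
/-- the condition `p`, made free on `F` -/
noncomputable def erase (p : Silver K) (F : Finset (K × ℕ)) : Silver K where
  f i n := if (i, n) ∈ F then none else p.f i n
  supp_countable := (p.modify_ok F _ fun _ _ h => if_neg h).1
  free_infinite := (p.modify_ok F _ fun _ _ h => if_neg h).2

open Classical in
theorem ext_f (p : Silver K) (F T : Finset (K × ℕ)) (i : K) (n : ℕ) :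
    (p.ext F T).f i n = if (i, n) ∈ F then some (decide ((i, n) ∈ T)) else p.f i n := rfl

open Classical in
theorem erase_f (p : Silver K) (F : Finset (K × ℕ)) (i : K) (n : ℕ) :
    (p.erase F).f i n = if (i, n) ∈ F then none else p.f i n := rfl

theorem ext_le {p : Silver K} {F T : Finset (K × ℕ)} (h : p.Free F) : p.ext F T ≤ p := by
  intro i n b hb
  rw [ext_f, if_neg]
  · exact hb
  · intro hF
    rw [h _ hF] at hb
    exact absurd hb (by simp)

theorem ext_mono {p q : Silver K} {F T : Finset (K × ℕ)} (h : q ≤ p) : q.ext F T ≤ p.ext F T := by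
  intro i n b hb
  rw [ext_f] at hb ⊢
  split_ifs at hb ⊢
  · exact hb
  · exact h i n b hb

/-! ### Total extensions -/

/-- `z` extends `p` -/
def Ext (p : Silver K) (z : K → ℕ → Bool) : Prop := ∀ i n b, p.f i n = some b → z i n = b

theorem exists_ext (p : Silver K) : ∃ z, p.Ext z :=
  ⟨fun i n => (p.f i n).getD false, fun i n b h => by simp [h]⟩

theorem Ext.mono {p q : Silver K} {z : K → ℕ → Bool} (h : q.Ext z) (hqp : q ≤ p) : p.Ext z :=
  fun i n b hb => h i n b (hqp i n b hb)

/-- the part of `F` where `z` is true -/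
noncomputable def tr (z : K → ℕ → Bool) (F : Finset (K × ℕ)) : Finset (K × ℕ) :=
  F.filter fun x => z x.1 x.2 = true

theorem mem_tr {z : K → ℕ → Bool} {F : Finset (K × ℕ)} {x : K × ℕ} :
    x ∈ tr z F ↔ x ∈ F ∧ z x.1 x.2 = true := Finset.mem_filter

theorem tr_subset (z : K → ℕ → Bool) (F : Finset (K × ℕ)) : tr z F ⊆ F := Finset.filter_subset _ _

theorem ext_tr_f {p : Silver K} {z : K → ℕ → Bool} {F : Finset (K × ℕ)} {i : K} {n : ℕ}
    (h : (i, n) ∈ F) : (p.ext F (tr z F)).f i n = some (z i n) := by
  rw [ext_f, if_pos h]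
  congr 1
  cases hz : z i n <;> simp [mem_tr, h, hz]

theorem ext_tr_le {p : Silver K} {z : K → ℕ → Bool} (h : p.Ext z) (F : Finset (K × ℕ)) :
    p.ext F (tr z F) ≤ p := by
  intro i n b hb
  by_cases hF : (i, n) ∈ F
  · rw [ext_tr_f hF, h i n b hb]
  · rw [ext_f, if_neg hF]
    exact hb

theorem ext_tr_ext {p : Silver K} {z : K → ℕ → Bool} (h : p.Ext z) (F : Finset (K × ℕ)) :
    (p.ext F (tr z F)).Ext z := by
  intro i n b hb
  by_cases hF : (i, n) ∈ F
  · rw [ext_tr_f hF] at hb
    exact Option.some.inj hb
  · rw [ext_f, if_neg hF] at hb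
    exact h i n b hb

theorem ext_tr_le_tr {p q : Silver K} {z : K → ℕ → Bool} (hqp : q ≤ p) {F G : Finset (K × ℕ)}
    (hFG : F ⊆ G) (hz : q.Ext z) : q.ext G (tr z G) ≤ p.ext F (tr z F) := by
  intro i n b hb
  by_cases hG : (i, n) ∈ G
  · rw [ext_tr_f hG]
    by_cases hF : (i, n) ∈ F
    · rwa [ext_tr_f hF] at hb
    · rw [ext_f, if_neg hF] at hb
      rw [hz i n b (hqp i n b hb)]
  · rw [ext_f, if_neg hG]
    rw [ext_f, if_neg fun h => hG (hFG h)] at hb
    exact hqp i n b hb

/-! ### One step of the fusion -/

/-- Treating all the `2 ^ F` assignments on a finite set of free places. -/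
theorem sweep {α : Type} [Preorder α] (Good : Finset (K × ℕ) → α → Set (Silver K))
    (hG : ∀ T a b p q, b ≤ a → q ≤ p → p ∈ Good T a → q ∈ Good T b)
    (p : Silver K) (F : Finset (K × ℕ)) (hF : p.Free F) (a : α)
    (hs : ∀ T, T ⊆ F → ∀ q ≤ p.ext F T, ∀ b ≤ a, ∃ r ≤ q, ∃ c ≤ b, r ∈ Good T c) :
    ∃ q ≤ p, q.Free F ∧ ∃ b ≤ a, ∀ T, T ⊆ F → q.ext F T ∈ Good T b := by
  classical
  have key : ∀ 𝒯 : Finset (Finset (K × ℕ)), 𝒯 ⊆ F.powerset →
      ∃ q ≤ p, q.Free F ∧ ∃ b ≤ a, ∀ T ∈ 𝒯, q.ext F T ∈ Good T b := by
    intro 𝒯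
    induction 𝒯 using Finset.induction_on with
    | empty => exact fun _ => ⟨p, le_rfl, hF, a, le_rfl, fun T hT => absurd hT (Finset.notMem_empty T)⟩
    | insert T 𝒯 hT ih =>
      intro hsub
      obtain ⟨q, hq, hqF, b, hb, h1⟩ := ih fun S hS => hsub (Finset.mem_insert_of_mem hS)
      have hTF : T ⊆ F := Finset.mem_powerset.1 (hsub (Finset.mem_insert_self T 𝒯))
      obtain ⟨r, hr, c, hc, h2⟩ := hs T hTF (q.ext F T) (ext_mono hq) b hb
      have h3 : r.erase F ≤ q := by
        intro i n d hd
        have hi : (i, n) ∉ F := fun h => by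
          rw [hqF _ h] at hd
          exact absurd hd (by simp)
        rw [erase_f, if_neg hi]
        refine hr i n d ?_
        rw [ext_f, if_neg hi]
        exact hd
      have h4 : (r.erase F).ext F T ≤ r := by
        intro i n d hd
        rw [ext_f]
        split_ifs with hi
        · have h5 : r.f i n = some (decide ((i, n) ∈ T)) := by
            refine hr i n _ ?_
            rw [ext_f, if_pos hi]
          rw [← hd, h5]
        · rw [erase_f, if_neg hi]
          exact hd
      refine ⟨r.erase F, h3.trans hq, fun x hx => ?_, c, hc.trans hb, fun S hS => ?_⟩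
      · rw [erase_f, if_pos hx]
      · rcases Finset.mem_insert.1 hS with rfl | hS
        · exact hG _ _ _ _ _ le_rfl h4 h2
        · exact hG _ _ _ _ _ hc (ext_mono h3) (h1 S hS)
  obtain ⟨q, hq, hqF, b, hb, h⟩ := key F.powerset Finset.Subset.rfl
  exact ⟨q, hq, hqF, b, hb, fun T hT => h T (Finset.mem_powerset.2 hT)⟩

end Silver

end Pool.Agent.H87.Luz
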