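import Pool.Agent.H87.Luz.Defs
import Pool.Agent.H87.CPos.Trivial

/-!
# The sentence of the forcing language for the trivial forcing notion is the plain statement
-/

set_option autoImplicit false

namespace Pool.Agent.H87.Luz

open Cardinal Set
open Pool.Agent.Helper292.ForceCH (fnot fand fall fimp fiff fex fground meets IsFun Om mem_fex
  mem_fimp)
open Pool.Agent.H87.CPos (Distinct unit_fnot unit_fex unit_fimp unit_meets unit_distinct)

theorem unit_dense {n : ℕ} (U : ℕ × Box n → Set Unit) :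
    () ∈ DenseName U ↔ DenseCode {z | () ∈ U z} := by
  constructor
  · intro h m I
    obtain ⟨J, hJ, hJ'⟩ := unit_fex.1 (h m I)
    exact ⟨J, hJ, unit_meets.1 hJ'⟩
  · intro h m I
    obtain ⟨J, hJ, hJ'⟩ := h m I
    exact unit_fex.2 ⟨J, hJ, unit_meets.2 hJ'⟩

theorem unit_open {n : ℕ} (U : ℕ × Box n → Set Unit) :
    () ∈ OpenName U ↔ OpenCode {z | () ∈ U z} := by
  constructor
  · intro h m I J hJ hI
    exact unit_meets.1 (unit_fimp.1 (h m I J hJ) (unit_meets.2 hI))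
  · intro h m I J hJ
    exact unit_fimp.2 fun hI => unit_meets.2 (h m I J hJ (unit_meets.1 hI))

theorem unit_cof (n : ℕ) : () ∈ CofHolds Unit n ↔ CofAx n := by
  rw [CofHolds, unit_fex]
  constructor
  · rintro ⟨D, hD, h⟩
    refine ⟨fun a => {z | () ∈ D a z}, fun a => (unit_dense _).1 (hD a), fun U hU hU' => ?_⟩
    obtain ⟨a, ha⟩ := unit_fex.1 (unit_fimp.1 (h fun z => {_x | z ∈ U})
      ⟨(unit_dense _).2 hU, (unit_open _).2 hU'⟩)
    exact ⟨a, fun z hz => unit_meets.1 (unit_fimp.1 (ha z) (unit_meets.2 hz))⟩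
  · rintro ⟨D, hD, h⟩
    refine ⟨fun a z => {_x | z ∈ D a}, fun a => (unit_dense _).2 (hD a), fun U => ?_⟩
    refine unit_fimp.2 fun hU => ?_
    obtain ⟨a, ha⟩ := h _ ((unit_dense _).1 hU.1) ((unit_open _).1 hU.2)
    exact unit_fex.2 ⟨a, fun z => unit_fimp.2 fun hz => unit_meets.2 (ha (unit_meets.1 hz))⟩

theorem unit_notSMZ {Λ : Type} (X : Λ → ℕ → Set Unit) :
    () ∈ NotSMZName X ↔ NotSMZ fun j => {n | () ∈ X j n} := by
  rw [NotSMZName, unit_fex]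
  constructor
  · rintro ⟨E, hE, h⟩
    refine ⟨{z | () ∈ E z}, fun n => ?_, fun S => ?_⟩
    · obtain ⟨b, hb⟩ := unit_fex.1 (hE n)
      exact ⟨b, fun m hm => unit_fimp.1 (hb m) (unit_meets.2 hm)⟩
    · obtain ⟨j, hj⟩ := unit_fex.1 (h fun z => {_x | z ∈ S})
      refine ⟨j, fun n => ?_⟩
      obtain ⟨m, hm, hm'⟩ := unit_fex.1 (hj n)
      refine ⟨m, unit_meets.1 hm, fun hc => unit_fnot.1 hm' ⟨?_, ?_⟩⟩
      · exact unit_fimp.2 fun h1 => unit_meets.2 (hc.1 (unit_meets.1 h1))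
      · exact unit_fimp.2 fun h1 => unit_meets.2 (hc.2 (unit_meets.1 h1))
  · rintro ⟨E, hE, h⟩
    refine ⟨fun z => {_x | z ∈ E}, fun n => ?_, fun S => ?_⟩
    · obtain ⟨b, hb⟩ := hE n
      exact unit_fex.2 ⟨b, fun m => unit_fimp.2 fun hm => hb m (unit_meets.1 hm)⟩
    · obtain ⟨j, hj⟩ := h {z | () ∈ S z}
      refine unit_fex.2 ⟨j, fun n => ?_⟩
      obtain ⟨m, hm, hm'⟩ := hj n
      refine unit_fex.2 ⟨m, unit_meets.2 hm, unit_fnot.2 fun hc => hm' ⟨fun h1 => ?_, fun h1 => ?_⟩⟩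
      · exact unit_meets.1 (unit_fimp.1 hc.1 (unit_meets.2 h1))
      · exact unit_meets.1 (unit_fimp.1 hc.2 (unit_meets.2 h1))

theorem unit_inj (X Y : Type) : () ∈ InjHolds Unit X Y ↔ ∃ F : X → Y, Function.Injective F := by
  rw [InjHolds, unit_fex]
  constructor
  · rintro ⟨F, ⟨h1, h2⟩, h3⟩
    choose f hf using fun x => unit_fex.1 (h1 x)
    refine ⟨f, fun x x' h => ?_⟩
    exact unit_fimp.1 (h3 x x' (f x)) ⟨hf x, h ▸ hf x'⟩
  · rintro ⟨f, hf⟩
    refine ⟨fun x y => {_x | f x = y}, ⟨fun x => unit_fex.2 ⟨f x, unit_meets.2 rfl⟩,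
      fun x y y' => unit_fimp.2 fun h => ?_⟩, fun x x' y => unit_fimp.2 fun h => ?_⟩
    · exact (unit_meets.1 h.1 : f x = y).symm.trans (unit_meets.1 h.2)
    · exact hf ((unit_meets.1 h.1 : f x = y).trans (unit_meets.1 h.2 : f x' = y).symm)

theorem unit_sing : (∀ p : Unit, p ∈ SingHolds Unit) ↔ SingAx := by
  have h0 : (∀ p : Unit, p ∈ SingHolds Unit) ↔ () ∈ SingHolds Unit :=
    ⟨fun h => h (), fun h _ => h⟩
  rw [h0, SingHolds, unit_fex]
  refine exists_congr fun K => ?_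
  rw [unit_fex]
  refine exists_congr fun k => ?_
  rw [unit_fex]
  refine exists_congr fun a₀ => ?_
  constructor
  · rintro ⟨h1, h2, h3, h4, h5⟩
    refine ⟨h1, fun a h => unit_fnot.1 (h2 a) ((unit_inj _ _).2 h), ?_,
      fun n => (unit_cof n).1 (h4 n), fun X hX => ?_⟩
    · obtain ⟨Y, hY⟩ := unit_fex.1 h3
      exact ⟨_, (unit_distinct Y).1 hY⟩
    · exact (unit_notSMZ _).1 (unit_fimp.1 (h5 fun j n => {_x | n ∈ X j})
        ((unit_distinct _).2 hX))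
  · rintro ⟨h1, h2, ⟨Y, hY⟩, h4, h5⟩
    refine ⟨h1, fun a => unit_fnot.2 fun h => h2 a ((unit_inj _ _).1 h),
      unit_fex.2 ⟨fun i n => {_x | n ∈ Y i}, (unit_distinct _).2 hY⟩,
      fun n => (unit_cof n).2 (h4 n), fun X => unit_fimp.2 fun hX => ?_⟩
    exact (unit_notSMZ X).2 (h5 _ ((unit_distinct X).1 hX))

end Pool.Agent.H87.Luz
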